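import Pool.Agent.T9h69.CF.Slide

set_option autoImplicit false
set_option linter.unusedSectionVars false

/-! Two hyperbolic homeomorphisms with the same stable sets have the same local stable sets. -/

open Filter Topology Set Metric unitInterval

namespace Pool.Agent.T9h69.CF

open Pool.Agent.H789R2.AN Pool.Agent.H789R2.GP Pool.Agent.N234.CP Pool.Agent.Y330.J

/-- a path in a countable set is constant -/
theorem const_of_countable {X : Type*} [MetricSpace X] (κ : I → X) (hκ : Continuous κ) {A : Set X}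
    (hA : A.Countable) (h : ∀ t, κ t ∈ A) (t : I) : κ t = κ 0 := by
  by_contra hne
  have hd : 0 < dist (κ 0) (κ t) := dist_pos.2 (Ne.symm hne)
  have hc : Continuous fun s : I => dist (κ 0) (κ s) := continuous_const.dist hκ
  have h1 : Icc (0 : ℝ) (dist (κ 0) (κ t)) ⊆ (fun s : I => dist (κ 0) (κ s)) '' univ := by
    have := isPreconnected_univ.intermediate_value (mem_univ (0 : I)) (mem_univ t) hc.continuousOn
    simpa using this
  have h2 : ((fun s : I => dist (κ 0) (κ s)) '' univ).Countable := by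
    refine (hA.image (fun a => dist (κ 0) a)).mono ?_
    rintro _ ⟨s, -, rfl⟩
    exact ⟨κ s, h s, rfl⟩
  have h3 := h2.mono h1
  rw [← Cardinal.le_aleph0_iff_set_countable, Cardinal.mk_Icc_real hd] at h3
  exact absurd h3 (not_le.2 Cardinal.aleph0_lt_continuum)

variable {X : Type*} [MetricSpace X] [CompactSpace X]

/-- the points of a stable set in a local unstable set -/
theorem countable_hom {g : X ≃ₜ X} {c : ℝ} (h : LP g c) (x p : X) :
    {q | WS g x q ∧ SR g.symm (c / 2) p q}.Countable := by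
  have hc := h.c_pos
  have key : {q | WS g x q ∧ SR g.symm (c / 2) p q} ⊆
      ⋃ n : ℕ, {q | SR g (c / 2) (g^[n] x) (g^[n] q) ∧ SR g.symm (c / 2) p q} := by
    rintro q ⟨h1, h2⟩
    obtain ⟨n, hn⟩ := h1.eventually_lt (half_pos hc)
    refine mem_iUnion.2 ⟨n, fun k => ?_, h2⟩
    rw [← Function.iterate_add_apply, ← Function.iterate_add_apply]
    exact (hn _ (by omega)).le
  refine (countable_iUnion fun n => ?_).mono key
  obtain ⟨η, hη, h1⟩ := T1_unif g n hc
  obtain ⟨Q, col, hcol⟩ := exists_col X (half_pos hη)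
  have hinj : InjOn col {q | SR g (c / 2) (g^[n] x) (g^[n] q) ∧ SR g.symm (c / 2) p q} := by
    rintro q ⟨a1, a2⟩ q' ⟨b1, b2⟩ hqq
    have hd : dist q q' < η := lt_of_le_of_lt (hcol _ _ hqq) (half_lt_self hη)
    refine expansive h (fun k => ?_) ((qs_SR_add a2.symm' b2).mono (by linarith))
    rcases le_total k n with hk | hk
    · exact (h1 k hk _ _ hd).le
    · have := qs_SR_add a1.symm' b1 (k - n)
      rw [← Function.iterate_add_apply, ← Function.iterate_add_apply, Nat.sub_add_cancel hk] at this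
      linarith
  exact (Set.Finite.of_finite_image (Set.toFinite _) hinj).countable

/-- a short path in a stable set is a path in a local stable set -/
theorem sr_of_path {g : X ≃ₜ X} {c : ℝ} (h : LP g c) {ε : ℝ} (hε : 0 < ε) : ∃ δ > 0,
    ∀ κ : C(I, X), (∀ t, WS g (κ 0) (κ t)) → (∀ t, dist (κ 0) (κ t) < δ) →
      SR g ε (κ 0) (κ 1) := by
  have hc := h.c_pos
  obtain ⟨br, δb, hb⟩ := exists_BrP h
  obtain ⟨η, hη, h2⟩ := hb.b2 (min ε (c / 3)) (lt_min hε (by linarith))
  refine ⟨min η δb, lt_min hη hb.pos, fun κ h3 h4 => ?_⟩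
  have hd : ∀ t, dist (κ t) (κ 0) < η := fun t => by
    rw [dist_comm]; exact (h4 t).trans_le (min_le_left _ _)
  have hd' : ∀ t, dist (κ t) (κ 0) < δb := fun t => by
    rw [dist_comm]; exact (h4 t).trans_le (min_le_right _ _)
  have hcont : Continuous fun t : I => br (κ t) (κ 0) := by
    rw [Metric.continuous_iff]
    intro t ε' hε'
    obtain ⟨η', hη', h5⟩ := hb.b4 ε' hε'
    obtain ⟨r, hr, h6⟩ := Metric.continuous_iff.1 κ.continuous t η' hη'
    refine ⟨r, hr, fun s hs => h5 _ _ _ _ (hd' s) (hd' t) (h6 s hs) ?_⟩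
    rw [dist_self]; exact hη'
  have hmem : ∀ t, br (κ t) (κ 0) ∈ {q | WS g (κ 0) q ∧ SR g.symm (c / 2) (κ 0) q} := by
    intro t
    obtain ⟨a1, a2⟩ := h2 _ _ (hd t)
    refine ⟨(h3 t).trans (WS.of_SR (h.cS _ _ (a1.mono ?_))), a2.mono ?_⟩
    · exact (min_le_right _ _).trans (by linarith)
    · exact (min_le_right _ _).trans (by linarith)
  have h5 := const_of_countable _ hcont (countable_hom h (κ 0) (κ 0)) hmem 1
  have h6 : br (κ 0) (κ 0) = κ 0 :=
    (hb.b3 _ _ _ (by rw [dist_self]; exact hb.pos) (qs_SR_refl _ (by linarith) _)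
      (qs_SR_refl _ (by linarith) _)).symm
  have h7 := (h2 _ _ (hd 1)).1
  rw [h5, h6] at h7
  exact (h7.mono (min_le_left _ _)).symm'

/-- local stable sets of `F` are contained in local stable sets of `H` -/
def Sub (F H : X ≃ₜ X) : Prop := ∀ ε > 0, ∃ η > 0, ∀ x y, SR F η x y → SR H ε x y

theorem Sub.refl (F : X ≃ₜ X) : Sub F F := fun ε hε => ⟨ε, hε, fun _ _ h => h⟩

theorem sub_of_ws {F H : X ≃ₜ X} {c d : ℝ} (hF : LP F c) (hH : LP H d) (hX : ULC X)
    (hWS : ∀ x y, WS F x y → WS H x y) : Sub F H := by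
  intro ε hε
  obtain ⟨δ, hδ, h1⟩ := sr_of_path hH hε
  obtain ⟨η, hη, h2⟩ := leaf_path hF hX (δ / 2) (half_pos hδ)
  refine ⟨η, hη, fun x y hxy => ?_⟩
  obtain ⟨υ, a1, a2, a3⟩ := h2 ⟨x⟩ ⟨y⟩ ((SM.dist_le _ _ hη.le).2 hxy)
  have e0 : (υ 0).val = x := by rw [a1]
  have e1 : (υ 1).val = y := by rw [a2]
  have h3 := h1 ⟨fun t => (υ t).val, SM.val_continuous.comp υ.continuous⟩ (fun t =>
    hWS _ _ (WS_of_path hF υ 0 t)) (fun t => by
      have := ((SM.dist_le _ _ (half_pos hδ).le).1 (a3 t)) 0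
      show dist (υ 0).val (υ t).val < δ
      rw [e0]
      exact lt_of_le_of_lt this (half_lt_self hδ))
  simp only [ContinuousMap.coe_mk] at h3
  rwa [e0, e1] at h3

end Pool.Agent.T9h69.CF
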