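import Pool.Agent.T9h69.CF.Row2

set_option autoImplicit false
set_option linter.unusedSectionVars false

/-! Polynomial growth of the fundamental group, if there are logarithmically many frames. -/

open Filter Topology Set Metric unitInterval
open scoped Pointwise

namespace Pool.Agent.T9h69.CF

open Pool.Agent.H789R2.AN Pool.Agent.H789R2.GP Pool.Agent.N234.CP Pool.Agent.Y330.J

variable {X : Type*} [MetricSpace X] [CompactSpace X] {g : X ≃ₜ X} {c : ℝ}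

/-- data for a generator -/
def GenS (g : X ≃ₜ X) (ρ : ℝ) (N : ℕ) {x : X} (α : Path.Homotopic.Quotient x x) : Prop :=
  ∃ (y : X) (p : Path.Homotopic.Quotient x y) (q : Path.Homotopic.Quotient y x),
    Scl g.symm p ∧ Scl g q ∧ α = p.trans q ∧ (∃ M ≤ N, Steps g.symm ρ M x y) ∧
    ∃ M ≤ N, Steps g ρ M y x

theorem steps_lpath {g : X ≃ₜ X} {ρ : ℝ} (hρ : 0 < ρ) {x y : X} {p : Path x y} (hp : LPath g p) :
    ∃ N, Steps g ρ N x y := by
  obtain ⟨v, hv⟩ := hp.sm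
  obtain ⟨N, hN⟩ := steps_path v hρ
  have := hN 1
  rw [hv, hv, p.source, p.target] at this
  exact ⟨N, this⟩

theorem GenS.exists (hg : LP g c) (hX : ULC X) (hex : Ex g) {ρ : ℝ} (hρ : 0 < ρ) {x : X}
    (α : Path.Homotopic.Quotient x x) : ∃ N : ℕ, ∀ b ≥ N, GenS g ρ b α := by
  obtain ⟨p₀, rfl⟩ := Path.Homotopic.Quotient.mk_surjective α
  obtain ⟨y, p, q, hp, hq, he⟩ := nf_all hg hX hex p₀
  obtain ⟨n₁, h1⟩ := steps_lpath hρ hp
  obtain ⟨n₂, h2⟩ := steps_lpath hρ hq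
  exact ⟨n₁ + n₂, fun b hb => ⟨y, cl p, cl q, ⟨p, hp, rfl⟩, ⟨q, hq, rfl⟩, he,
    ⟨n₁, by omega, h1⟩, n₂, by omega, h2⟩⟩

theorem GenS.finite (hg : LP g c) (hX : ULC X) (hex : Ex g) {ρ : ℝ} (hρ : 0 < ρ) {x : X}
    {S : Set (FundamentalGroup X x)} (hS : S.Finite) :
    ∃ N : ℕ, ∀ α ∈ S, GenS g ρ N (x := x) α := by
  choose N hN using fun α : FundamentalGroup X x => GenS.exists (c := c) hg hX hex hρ (x := x) α
  obtain ⟨m, hm⟩ := (hS.image N).bddAbove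
  exact ⟨m, fun α hα => hN α m (hm (mem_image_of_mem _ hα))⟩

theorem Steps.lift_le {g g' φ : X ≃ₜ X} {δ δ' : ℝ} {L : ℕ}
    (U : ∀ x y, SR g δ x y → ∃ M ≤ L, Steps g' δ' M (φ x) (φ y)) {N : ℕ} {x y : X}
    (h : ∃ M ≤ N, Steps g δ M x y) : ∃ M ≤ N * L, Steps g' δ' M (φ x) (φ y) := by
  obtain ⟨M, hM, h1⟩ := h
  obtain ⟨M', hM', h2⟩ := Steps.lift U h1
  exact ⟨M', hM'.trans (Nat.mul_le_mul_right _ hM), h2⟩

/-- products of generators -/
theorem St.pow' (hg : LP g c) (hX : ULC X) {br : X → X → X} {δb δ₁ ρ η δm : ℝ} {φ ψ : X ≃ₜ X}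
    {θ : ℕ → X ≃ₜ X} {n N N₀ J₁ L₁ : ℕ}
    (F : Frm g c br δb δ₁ ρ η δm φ ψ θ n (N * N₀ * J₁) (N * N₀ * L₁))
    (sq : Sq g δ₁ ψ) (hψ : ∀ x, ψ (g x) = g (ψ x)) (wφ : ∀ x y, WS g (φ x) (φ y) → WS g x y)
    {x : X} {S : Set (FundamentalGroup X x)} (hS : ∀ α ∈ S, GenS g ρ N₀ (x := x) α)
    (U1 : ∀ x y, SR g ρ x y → ∃ M ≤ L₁, Steps g ρ M (φ x) (φ y))
    (U2 : ∀ x y, SR g.symm ρ x y → ∃ M ≤ J₁, Steps g.symm ρ M (ψ x) (ψ y)) :
    ∀ i ≤ N, ∀ α ∈ S ^ i, ∃ L ≤ i * (N₀ * L₁),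
      St g φ ψ δ₁ ρ (i * (N₀ * J₁)) L (x := x) (z := x) α := by
  intro i
  induction i with
  | zero =>
    intro _ α hα
    rw [pow_zero, Set.mem_one] at hα
    rw [hα, FundamentalGroup.one_def]
    exact ⟨0, Nat.zero_le _, (St.init g φ ψ δ₁ ρ x).mono (Nat.zero_le _)⟩
  | succ i ih =>
    intro hi α hα
    rw [pow_succ'] at hα
    obtain ⟨γ, hγ, β, hβ, rfl⟩ := Set.mem_mul.1 hα
    rw [FundamentalGroup.mul_def]
    obtain ⟨L, hL, h1⟩ := ih (by omega) β hβ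
    obtain ⟨y, p, q, hp, hq, he, s1, s2⟩ := hS γ hγ
    obtain ⟨M, hM, t1⟩ := Steps.lift_le U2 s1
    obtain ⟨M', hM', t2⟩ := Steps.lift_le U1 s2
    have hn1 : (i + 1) * (N₀ * J₁) ≤ N * N₀ * J₁ := by
      rw [Nat.mul_assoc]; exact Nat.mul_le_mul_right _ hi
    have hn2 : (i + 1) * (N₀ * L₁) ≤ N * N₀ * L₁ := by
      rw [Nat.mul_assoc]; exact Nat.mul_le_mul_right _ hi
    have a1 : (i + 1) * (N₀ * J₁) = i * (N₀ * J₁) + N₀ * J₁ := by ring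
    have a2 : (i + 1) * (N₀ * L₁) = i * (N₀ * L₁) + N₀ * L₁ := by ring
    have h2 := h1.stepsU hg hX F sq hψ wφ (N := M) (by omega) (by omega) hp t1
    have h3 := h2.stepsS hg hX F.hρδ (by linarith [F.hδ₁, F.hρ0, F.hρδ]) wφ hq t2
    refine ⟨L + M', by omega, ?_⟩
    have h4 : (β : Path.Homotopic.Quotient x x).trans γ = (β.trans p).trans q := by
      rw [Path.Homotopic.Quotient.trans_assoc, ← he]
    rw [h4]
    exact h3.mono (by omega)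

theorem log_mul_le (a b : ℕ) : Nat.log 2 (a * b) ≤ Nat.log 2 a + Nat.log 2 b + 1 := by
  rcases Nat.eq_zero_or_pos (a * b) with h | h
  · rw [h]; simp
  · have h1 : a < 2 ^ (Nat.log 2 a + 1) := Nat.lt_pow_succ_log_self (by norm_num) _
    have h2 : b < 2 ^ (Nat.log 2 b + 1) := Nat.lt_pow_succ_log_self (by norm_num) _
    have h3 : a * b < 2 ^ (Nat.log 2 a + Nat.log 2 b + 2) := by
      calc a * b < 2 ^ (Nat.log 2 a + 1) * 2 ^ (Nat.log 2 b + 1) :=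
            Nat.mul_lt_mul'' h1 h2
        _ = _ := by rw [← pow_add]; congr 1; omega
    have h4 := Nat.log_lt_of_lt_pow (b := 2) h.ne' h3
    omega

/-- **Polynomial growth** of the fundamental group. -/
theorem growth_of_frames (hg : LP g c) (hX : ULC X) (hex : Ex g) {br : X → X → X}
    {δb δ₁ ρ η δm : ℝ} (hρ : 0 < ρ) (hδm : 0 < δm)
    (hsq : ∀ ψ : X ≃ₜ X, (∀ x, ψ (g x) = g (ψ x)) → Sq g δ₁ ψ) (A K : ℕ)
    (HF : ∀ N : ℕ, ∃ n ≤ A + K * Nat.log 2 (N + 1), HFr g c br δb δ₁ ρ η δm N n) :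
    ∃ d : ℕ, ∀ (x : X) (S : Set (FundamentalGroup X x)), S.Finite →
      ∃ C : ℕ, ∀ n : ℕ, (S ^ n).ncard ≤ C * (n + 1) ^ d := by
  classical
  have hc := hg.c_pos
  obtain ⟨Q, col, hcol⟩ := exists_col X (η := 3 * δm) (by positivity)
  refine ⟨Q * K, fun x S hS => ?_⟩
  obtain ⟨N₀, hN₀⟩ := GenS.finite (c := c) hg hX hex hρ hS
  refine ⟨(2 ^ Q) ^ (A + 1 + K * (Nat.log 2 (N₀ + 1) + 1)), fun N => ?_⟩
  obtain ⟨n, hn, φ, ψ, θ, J₁, L₁, F, U1, U2, -, -, -, hψ, wφ⟩ := HF (N * N₀)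
  have hne : Nonempty X := ⟨x⟩
  have hδ1c := F.hδ₁
  have hρδ := F.hρδ
  have hpow := St.pow' hg hX F (hsq ψ hψ) hψ wφ hN₀ U1 U2 N le_rfl
  have hC' : ∀ α ∈ S ^ N, ∃ y : X, ∃ (p : Path.Homotopic.Quotient x y)
      (q : Path.Homotopic.Quotient y x), Scl g.symm p ∧ Scl g q ∧ α = p.trans q ∧
      SR g.symm ρ (φ x) (φ y) ∧ SR g ρ (ψ y) (ψ x) := by
    intro α hα
    obtain ⟨L, hL, y, p, b, b', α', β', h5, h6, h7, h8, h9, ⟨i, hi, h10⟩, h11⟩ := hpow α hα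
    subst h5
    refine ⟨p 0, α', β', h7, h8, h9, F.CU i (by rw [Nat.mul_assoc]; exact hi) _ _ h10, ?_⟩
    apply F.CS L (by rw [Nat.mul_assoc]; exact hL)
    rw [← h6]
    exact ⟨fun t => φ (p t), rfl, rfl, fun t ht => (h11 t ht).1⟩
  choose! y hy using hC'
  have hinj : Set.InjOn (fun α => fun m : Fin (n + 1) => col (θ (m : ℕ) (y α))) (S ^ N) := by
    intro α hα β hβ hab
    obtain ⟨p, r, p1, r1, e1, u1, s1⟩ := hy α hα
    obtain ⟨p', r', p2, r2, e2, u2, s2⟩ := hy β hβ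
    have h1 : y α = y β := by
      apply φ.injective
      refine expansive hg ?_ ?_
      · apply F.down
        · exact (qs_SR_add s1 s2.symm').mono (by linarith)
        · intro i hi
          exact hcol _ _ (congrFun hab ⟨i, by omega⟩)
      · exact (qs_SR_add u1.symm' u2).mono (by linarith [F.hρ0])
    rw [e1, e2]
    clear e1 e2 hab hα hβ
    generalize y β = yb at *
    subst h1
    rw [p1.unique hX p2, r1.unique hX r2]
  have hcard : (S ^ N).ncard ≤ (Q + 1) ^ (n + 1) := by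
    have h1 := Set.ncard_le_ncard_of_injOn _ (t := (Set.univ : Set (Fin (n + 1) → Fin (Q + 1))))
      (fun α _ => mem_univ _) hinj
    rwa [Set.ncard_univ, Nat.card_eq_fintype_card, Fintype.card_fun, Fintype.card_fin,
      Fintype.card_fin] at h1
  have hQ2 : (Q + 1) ^ (n + 1) ≤ (2 ^ Q) ^ (n + 1) :=
    Nat.pow_le_pow_left Nat.lt_two_pow_self _
  have hn2 : n + 1 ≤ (A + 1 + K * (Nat.log 2 (N₀ + 1) + 1)) + K * Nat.log 2 (N + 1) := by
    have a1 : Nat.log 2 (N * N₀ + 1) ≤ Nat.log 2 ((N + 1) * (N₀ + 1)) :=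
      Nat.log_mono_right (by nlinarith)
    have a2 := log_mul_le (N + 1) (N₀ + 1)
    have a3 : K * Nat.log 2 (N * N₀ + 1) ≤
        K * (Nat.log 2 (N + 1) + Nat.log 2 (N₀ + 1) + 1) := Nat.mul_le_mul_left _ (by omega)
    have a4 : K * (Nat.log 2 (N + 1) + Nat.log 2 (N₀ + 1) + 1) =
        K * (Nat.log 2 (N₀ + 1) + 1) + K * Nat.log 2 (N + 1) := by ring
    omega
  have h3 : (2 ^ Q) ^ (n + 1) ≤ (2 ^ Q) ^ ((A + 1 + K * (Nat.log 2 (N₀ + 1) + 1)) +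
      K * Nat.log 2 (N + 1)) :=
    Nat.pow_le_pow_right (by positivity) hn2
  have h4 : (2 ^ Q) ^ (K * Nat.log 2 (N + 1)) ≤ (N + 1) ^ (Q * K) := by
    calc (2 ^ Q) ^ (K * Nat.log 2 (N + 1)) = (2 ^ Nat.log 2 (N + 1)) ^ (Q * K) := by
          rw [← pow_mul, ← pow_mul]
          congr 1
          ring
      _ ≤ _ := Nat.pow_le_pow_left (Nat.pow_log_le_self 2 (by omega)) _
  refine hcard.trans (hQ2.trans (h3.trans ?_))
  rw [pow_add]
  exact Nat.mul_le_mul_left _ h4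

end Pool.Agent.T9h69.CF
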