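import Pool.Agent.T9h69.CF.Slide

set_option autoImplicit false
set_option linter.unusedSectionVars false

/-! All unstable paths lift, if there are frames for every number of steps. -/

open Filter Topology Set Metric unitInterval

namespace Pool.Agent.T9h69.CF

open Pool.Agent.H789R2.AN Pool.Agent.H789R2.GP Pool.Agent.N234.CP Pool.Agent.Y330.J

variable {X : Type*} [MetricSpace X] [CompactSpace X]

/-- uniform asymptotics of the displacements which are stable steps in the frame `φ` -/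
def UA (g φ : X ≃ₜ X) (δ₁ : ℝ) : Prop := ∀ ε > 0, ∃ N : ℕ, ∀ k ≥ N, ∀ x y,
  SR g δ₁ (φ x) (φ y) → dist (g^[k] x) (g^[k] y) ≤ ε

theorem UA.ws {g φ : X ≃ₜ X} {δ₁ : ℝ} (h : UA g φ δ₁) {x y : X} (hxy : SR g δ₁ (φ x) (φ y)) :
    WS g x y := by
  show Tendsto _ _ _
  rw [Metric.tendsto_atTop]
  intro ε hε
  obtain ⟨N, hN⟩ := h (ε / 2) (half_pos hε)
  refine ⟨N, fun k hk => ?_⟩
  rw [Real.dist_eq, sub_zero, abs_of_nonneg dist_nonneg]
  exact lt_of_le_of_lt (hN k hk x y hxy) (half_lt_self hε)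

theorem Loc.continuous {g φ : X ≃ₜ X} (h : Loc g φ) :
    Continuous fun z : SM g => (⟨φ z.val⟩ : SM g) := by
  rw [Metric.continuous_iff]
  intro z ε hε
  obtain ⟨η, hη, h1⟩ := h (ε / 2) (half_pos hε)
  refine ⟨η, hη, fun z' hz' => ?_⟩
  exact lt_of_le_of_lt ((SM.dist_le _ _ (half_pos hε).le).mpr
    (h1 _ _ ((SM.dist_le _ _ hη.le).mp hz'.le))) (half_lt_self hε)

theorem strip_frame {g : X ≃ₜ X} {c : ℝ} (h : LP g c) {br : X → X → X}
    {δb δ₁ ρ η δm : ℝ} {φ ψ : X ≃ₜ X} {θ : ℕ → X ≃ₜ X} {n J Lm : ℕ}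
    (F : Frm g c br δb δ₁ ρ η δm φ ψ θ n J Lm) (hU : Loc g.symm φ) (hU' : Loc g.symm φ.symm)
    (ua : UA g φ δ₁) (v : C(I, SM g.symm)) (s : X) (hv : ∀ t, dist (φ (v t).val) s < η) :
    ∃ K : C(I, Pr g), ∀ t, (K t).x = (v t).val ∧ (K t).y = φ.symm (br (φ (v t).val) s) := by
  let v' : C(I, SM g.symm) := ⟨fun t => ⟨φ (v t).val⟩, (Loc.continuous hU).comp v.continuous⟩
  have hv' : ∀ t, (v' t).val = φ (v t).val := fun t => rfl
  obtain ⟨K', hK'⟩ := br_strip h F.hb v' s (fun t => by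
    rw [hv']
    exact (hv t).trans_le F.hη)
  have hS : ∀ t, SR g δ₁ (φ (v t).val) (φ (φ.symm (br (φ (v t).val) s))) := fun t => by
    rw [φ.apply_symm_apply]
    exact (F.b2 _ _ (hv t)).1
  let K : I → Pr g := fun t => ⟨(v t).val, φ.symm (br (φ (v t).val) s), ua.ws (hS t)⟩
  have hK : Continuous K := by
    rw [Pr.continuous_iff]
    refine ⟨v.continuous, ?_, fun t ε hε => ?_⟩
    · have h1 : Continuous fun t : I => (⟨φ.symm (sndPath K' t).val⟩ : SM g.symm) :=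
        (Loc.continuous hU').comp (sndPath K').continuous
      have h2 : (fun t : I => (⟨φ.symm (sndPath K' t).val⟩ : SM g.symm)) =
          fun t => (K t).snd := by
        funext t
        apply SM.ext
        show φ.symm (K' t).y = φ.symm (br (φ (v t).val) s)
        rw [(hK' t).2, hv']
      rw [← h2]
      exact h1
    · obtain ⟨N, hN⟩ := ua ε hε
      exact ⟨N, Eventually.of_forall fun r k hk => hN k hk _ _ (hS r)⟩
  exact ⟨⟨K, hK⟩, fun t => ⟨rfl, rfl⟩⟩

/-- Lifting an unstable path, short in the bottom frame, along a stable chain. -/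
theorem bottom_lift' {g : X ≃ₜ X} {c : ℝ} (h : LP g c) {br : X → X → X}
    {δb δ₁ ρ η δm : ℝ} {φ ψ : X ≃ₜ X} {θ : ℕ → X ≃ₜ X} {n J Lm : ℕ}
    (F : Frm g c br δb δ₁ ρ η δm φ ψ θ n J Lm) (hU : Loc g.symm φ) (hU' : Loc g.symm φ.symm)
    (ua : UA g φ δ₁) :
    ∀ (L : ℕ) (z : ℕ → X) (v : C(I, SM g.symm)), (v 0).val = z 0 →
      (∀ i < L, SR g ρ (φ (z i)) (φ (z (i + 1)))) →
      (∀ t, ∃ p : ℕ → X, p 0 = (v t).val ∧ (∀ i < L, SR g δ₁ (φ (p i)) (φ (p (i + 1)))) ∧
        ∀ i ≤ L, SR g.symm ρ (φ (z i)) (φ (p i))) → ∃ x, LO v (z L) x := by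
  have hc := h.c_pos
  have hδ := F.hδ₁
  have hρδ := F.hρδ
  have hρ0 := F.hρ0
  have hρη := F.hρη
  have hη := F.hη
  intro L
  induction L with
  | zero =>
    intro z v h0 _ _
    refine ⟨(v 1).val, ?_⟩
    rw [← h0]
    exact LO_diag v
  | succ L ih =>
    intro z v h0 hz hp
    have hv : ∀ t, dist (φ (v t).val) (φ (z 1)) < η := by
      intro t
      obtain ⟨p, p0, p1, p2⟩ := hp t
      have h1 : dist (φ (z 0)) (φ (p 0)) ≤ ρ := p2 0 (by omega) 0
      have h2 : dist (φ (z 0)) (φ (z 1)) ≤ ρ := hz 0 (by omega) 0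
      rw [p0] at h1
      have h3 := dist_triangle_left (φ (v t).val) (φ (z 1)) (φ (z 0))
      linarith
    obtain ⟨K, hK⟩ := strip_frame h F hU hU' ua v (φ (z 1)) hv
    let v₁ : C(I, SM g.symm) := sndPath K
    have hv₁ : ∀ t, (v₁ t).val = φ.symm (br (φ (v t).val) (φ (z 1))) := fun t => (hK t).2
    have e1 : br (φ (z 0)) (φ (z 1)) = φ (z 1) := by
      have h1 := (hv 0).trans_le hη
      rw [h0] at h1
      exact (F.hb.b3 _ _ _ h1 ((hz 0 (by omega)).mono (by linarith))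
        (qs_SR_refl _ (by linarith) _)).symm
    obtain ⟨x, hx⟩ := ih (fun i => z (i + 1)) v₁ (by rw [hv₁, h0, e1, φ.symm_apply_apply])
      (fun i hi => hz (i + 1) (by omega)) (fun t => by
        obtain ⟨p, p0, p1, p2⟩ := hp t
        refine ⟨fun i => p (i + 1), ?_, fun i hi => p1 (i + 1) (by omega),
          fun i hi => p2 (i + 1) (by omega)⟩
        rw [hv₁]
        have h1 := F.hb.b3 (φ (v t).val) (φ (z 1)) (φ (p 1)) ((hv t).trans_le hη) ?_
          ((p2 1 (by omega)).mono (by linarith))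
        · show p 1 = _
          rw [← h1, φ.symm_apply_apply]
        · rw [← p0]
          exact (p1 0 (by omega)).mono (by linarith))
    refine ⟨x, ?_⟩
    exact LO_comp ⟨K, rfl, rfl, fun t => (hK t).1, fun t => rfl⟩ hx

end Pool.Agent.T9h69.CF
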