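import Pool.Agent.T9h69.CF.Lift

set_option autoImplicit false
set_option linter.unusedSectionVars false

/-! All unstable paths lift, if there are frames for every number of steps. -/

open Filter Topology Set Metric unitInterval

namespace Pool.Agent.T9h69.CF

open Pool.Agent.H789R2.AN Pool.Agent.H789R2.GP Pool.Agent.N234.CP Pool.Agent.Y330.J

variable {X : Type*} [MetricSpace X] [CompactSpace X]

/-- sliding a fixed stable chain along an unstable chain -/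
theorem ladder' {g : X ≃ₜ X} {c : ℝ} {br : X → X → X}
    {δb δ₁ ρ η δm : ℝ} {φ ψ : X ≃ₜ X} {θ : ℕ → X ≃ₜ X} {n J Lm : ℕ}
    (F : Frm g c br δb δ₁ ρ η δm φ ψ θ n J Lm) {L J' : ℕ} (hL : L ≤ Lm) (hJ : J' ≤ J)
    (z w : ℕ → X) (hz : ∀ i < L, SR g ρ (φ (z i)) (φ (z (i + 1))))
    (hw : ∀ j < J', SR g.symm ρ (ψ (w j)) (ψ (w (j + 1)))) (h0 : w 0 = z 0) :
    ∀ j ≤ J', ∃ p : ℕ → X, p 0 = w j ∧ (∀ i < L, SR g δ₁ (φ (p i)) (φ (p (i + 1)))) ∧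
      ∀ i ≤ L, Steps g.symm δ₁ j (ψ (z i)) (ψ (p i)) := by
  have hδ := F.hδ₁
  have hρδ := F.hρδ
  have hρ0 := F.hρ0
  have hρη := F.hρη
  have hη := F.hη
  intro j
  induction j with
  | zero =>
    intro _
    exact ⟨z, h0.symm, fun i hi => (hz i hi).mono hρδ, fun i _ => steps_zero _ _ _⟩
  | succ j ih =>
    intro hj
    obtain ⟨p, hp0, hp1, hp2⟩ := ih (by omega)
    have hd : ∀ i ≤ L, dist (ψ (w (j + 1))) (ψ (p i)) < η := by
      intro i hi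
      have h1 : dist (ψ (w j)) (ψ (w (j + 1))) ≤ ρ := hw j (by omega) 0
      have h2 : dist (ψ (p 0)) (ψ (p i)) ≤ ρ := F.CS i (by omega) _ _
        (Steps.of_chain (p := fun i => φ (p i)) hp1 hi) 0
      rw [hp0] at h2
      have h3 := dist_triangle (ψ (w (j + 1))) (ψ (w j)) (ψ (p i))
      rw [dist_comm (ψ (w (j + 1))) (ψ (w j))] at h3
      linarith
    obtain ⟨q, q0, q1, q2, q3, -, -⟩ := slide F (b := z) (b' := fun l => z (l + 1)) (j := j)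
      (by omega) hd hp1 hz (fun l hl => ⟨j, le_rfl, hp2 l hl.le⟩)
      (fun l hl => ⟨j, le_rfl, hp2 (l + 1) hl⟩)
    refine ⟨q, ?_, q3, fun i hi => (hp2 i hi).snoc (q1 i hi)⟩
    apply ψ.injective
    rw [q0, hp0]
    have h1 : dist (ψ (w (j + 1))) (ψ (w j)) < δb := by
      have h2 : dist (ψ (w j)) (ψ (w (j + 1))) ≤ ρ := hw j (by omega) 0
      rw [dist_comm]
      linarith
    exact (F.hb.b3 (ψ (w (j + 1))) (ψ (w j)) (ψ (w (j + 1))) h1 (qs_SR_refl _ (by linarith) _)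
      ((hw j (by omega)).mono (by linarith))).symm

/-- frames for `N` steps -/
def HFr (g : X ≃ₜ X) (c : ℝ) (br : X → X → X) (δb δ₁ ρ η δm : ℝ) (N n : ℕ) : Prop :=
  ∃ (φ ψ : X ≃ₜ X) (θ : ℕ → X ≃ₜ X) (J₁ L₁ : ℕ),
    Frm g c br δb δ₁ ρ η δm φ ψ θ n (N * J₁) (N * L₁) ∧
    (∀ x y, SR g ρ x y → ∃ M ≤ L₁, Steps g ρ M (φ x) (φ y)) ∧
    (∀ x y, SR g.symm ρ x y → ∃ M ≤ J₁, Steps g.symm ρ M (ψ x) (ψ y)) ∧
    Loc g.symm φ ∧ Loc g.symm φ.symm ∧ UA g φ δ₁ ∧ (∀ x, ψ (g x) = g (ψ x)) ∧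
    (∀ x y, WS g (φ x) (φ y) → WS g x y)

theorem lf_of_frames {g : X ≃ₜ X} {c : ℝ} (h : LP g c) (hX : ULC X)
    {br : X → X → X} {δb δ₁ ρ η δm : ℝ} (hρ : 0 < ρ)
    (HF : ∀ N : ℕ, ∃ n : ℕ, HFr g c br δb δ₁ ρ η δm N n) : ∀ a s, WS g a s → Lf g a s := by
  intro a s has υ hυ
  obtain ⟨v, v0, v1⟩ := leaf_conn h hX a s has
  obtain ⟨N₁, hN₁⟩ := steps_path v hρ
  obtain ⟨N₂, hN₂⟩ := steps_path υ hρ
  obtain ⟨n, φ, ψ, θ, J₁, L₁, F, U1, U2, hU, hU', ua, -, -⟩ := HF (N₁ + N₂)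
  have hS : Steps g ρ N₁ a s := by
    have := hN₁ 1
    rwa [v0, v1] at this
  obtain ⟨L, hL, z', z0, zL, hz⟩ := Steps.lift (φ := φ) U1 hS
  have hLm : L ≤ (N₁ + N₂) * L₁ := hL.trans (Nat.mul_le_mul_right _ (by omega))
  have hphi : ∀ y, φ (φ.symm y) = y := φ.apply_symm_apply
  have hpsi : ∀ y, ψ (ψ.symm y) = y := ψ.apply_symm_apply
  set z : ℕ → X := fun i => φ.symm (z' i) with hzdef
  have e0 : z 0 = a := by
    show φ.symm (z' 0) = a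
    rw [z0, φ.symm_apply_apply]
  have eL : z L = s := by
    show φ.symm (z' L) = s
    rw [zL, φ.symm_apply_apply]
  have hz1 : ∀ i < L, SR g ρ (φ (z i)) (φ (z (i + 1))) := fun i hi => by
    show SR g ρ (φ (φ.symm (z' i))) (φ (φ.symm (z' (i + 1))))
    rw [hphi, hphi]
    exact hz i hi
  obtain ⟨x, hx⟩ := bottom_lift' h F hU hU' ua L z υ (by rw [hυ, e0]) hz1 (fun t => by
    have hT := hN₂ t
    rw [hυ] at hT
    obtain ⟨J, hJ, w', w0, wJ, hw⟩ := Steps.lift (φ := ψ) U2 hT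
    have hJm : J ≤ (N₁ + N₂) * J₁ := hJ.trans (Nat.mul_le_mul_right _ (by omega))
    obtain ⟨p, p0, p1, p2⟩ := ladder' F hLm hJm z (fun i => ψ.symm (w' i)) hz1 (fun j hj => by
        rw [hpsi, hpsi]
        exact hw j hj) (by
        show ψ.symm (w' 0) = z 0
        rw [w0, ψ.symm_apply_apply, e0]) J le_rfl
    refine ⟨p, ?_, p1, fun i hi => F.CU J hJm _ _ (p2 i hi)⟩
    rw [p0]
    show ψ.symm (w' J) = _
    rw [wJ, ψ.symm_apply_apply])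
  rw [eL] at hx
  exact ⟨x, hx⟩

end Pool.Agent.T9h69.CF
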