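import Pool.Agent.T9h69.CF.Pair
import Pool.Agent.N234.CP.Final
import Pool.Agent.TH289.HomMain
import Pool.Agent.TH289.Closing

set_option autoImplicit false
set_option linter.unusedSectionVars false

/-! Pinching for two Anosov diffeomorphisms with common stable and unstable sets: final assembly. -/

open Filter Topology Set Metric
open scoped Manifold ContDiff Pointwise

namespace Pool.Agent.T9h69.CF

open Pool.Agent.H721R2 Pool.Agent.H789R2.AN Pool.Agent.H789R2.GP Pool.Agent.Y330.J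
open Pool.Agent.TH289.K (GPS)
open Pool.Agent.TH289 (Asym)
open Pool.Agent.N234.CP

universe u v w

section manifold

variable {E : Type u} [NormedAddCommGroup E] [NormedSpace ℝ E] [FiniteDimensional ℝ E]
  {M : Type v} [TopologicalSpace M] [T2Space M] [CompactSpace M] [ConnectedSpace M]
  [ChartedSpace E M] [IsManifold 𝓘(ℝ, E) ∞ M]

/-- Coarse pinching for a pair. -/
theorem pair_pinching (f h : Diffeomorph 𝓘(ℝ, E) 𝓘(ℝ, E) M M 1)
    (Es Eu Es' Eu' : ∀ x : M, Submodule ℝ (TangentSpace 𝓘(ℝ, E) x)) (hA : IsAnosov f Es Eu)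
    (hB : IsAnosov h Es' Eu') (eS : ∀ x y, Asym f x y ↔ Asym h x y)
    (eU : ∀ x y, Asym f.symm x y ↔ Asym h.symm x y)
    (a S a' b b' U : ℝ) (ha : 0 < a) (haS : a ≤ S) (hb : 0 < b) (hbU : b ≤ U) (ha' : 0 < a')
    (hb' : 0 < b') (h1 : CoarseContracts h a) (h2 : CoarseExpands h.toHomeomorph S)
    (h3 : CoarseContracts f.symm b) (h4 : CoarseExpands f.toHomeomorph.symm U)
    (h5 : CoarseContracts f a') (h6 : CoarseContracts h.symm b')
    (hlt : (S - a) * (U - b) < a' * b') :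
    TopTransitive f ∧ Dense (Function.periodicPts f) ∧ GPS f.toHomeomorph ∧
      (∃ q : E → M, IsCoveringMap q ∧ Function.Surjective q) ∧
      ∃ d : ℕ, ∀ (x : M) (S : Set (FundamentalGroup M x)), S.Finite →
        ∃ C : ℕ, ∀ n : ℕ, (S ^ n).ncard ≤ C * (n + 1) ^ d := by
  obtain ⟨m, e, he, hemb, hinj⟩ := exists_embedding_euclidean_of_compact (I := 𝓘(ℝ, E)) (M := M)
  let _ : MetricSpace M := hemb.isEmbedding.comapMetricSpace e
  have hiso : ∀ x y : M, dist x y = ‖e x - e y‖ := fun x y => dist_eq_norm (e x) (e y)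
  have he1 : ContMDiff 𝓘(ℝ, E) (𝓡 m) 1 e := he.of_le (by simp)
  obtain ⟨C, r₁, r₂, Ls, Lu, hE⟩ := eanosov_of_isAnosov e he1 hinj f Es Eu hA
  obtain ⟨n, Sy, hn1, hg, -, -, -, -, -⟩ := exists_sys hiso he1 hinj hE
    (a' := 1) (b' := 1) hE.a_lt hE.b_lt
  obtain ⟨c, hLP⟩ := exists_LP Sy
  obtain ⟨C', r₁', r₂', Ls', Lu', hE'⟩ := eanosov_of_isAnosov e he1 hinj h Es' Eu' hB
  obtain ⟨n', Sy', hn1', hg', -, -, -, -, -⟩ := exists_sys hiso he1 hinj hE'
    (a' := 1) (b' := 1) hE'.a_lt hE'.b_lt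
  obtain ⟨c', hLP'⟩ := exists_LP Sy'
  have hc := hLP.c_pos
  have hc' := hLP'.c_pos
  have hn0 : (0 : ℝ) < n := by
    have : (1 : ℝ) ≤ n := by exact_mod_cast hn1
    linarith
  have hn0' : (0 : ℝ) < n' := by
    have : (1 : ℝ) ≤ n' := by exact_mod_cast hn1'
    linarith
  have hsym : (iterHomeo f.toHomeomorph n).symm = iterHomeo f.toHomeomorph.symm n := rfl
  have hsym' : (iterHomeo h.toHomeomorph n').symm = iterHomeo h.toHomeomorph.symm n' := rfl
  obtain ⟨δ₁, hδ₁, R1⟩ := CoarseContracts.loRate (f := h.toHomeomorph) h1 hn1'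
  obtain ⟨δ₂, hδ₂, R2⟩ := CoarseContracts.loRate (f := f.toHomeomorph) h5 hn1
  obtain ⟨δ₃, hδ₃, R3⟩ := CoarseContracts.loRate (f := f.toHomeomorph.symm) h3 hn1
  obtain ⟨δ₄, hδ₄, R4⟩ := CoarseContracts.loRate (f := h.toHomeomorph.symm) h6 hn1'
  obtain ⟨δ₅, hδ₅, R5⟩ := h2.upRate hn1'
  obtain ⟨δ₆, hδ₆, R6⟩ := h4.upRate hn1
  rw [← hsym] at R3 R6
  rw [← hsym'] at R4
  rw [← hg] at R2 R3 R6
  rw [← hg'] at R1 R4 R5
  set δ := min (min (min δ₁ δ₂) (min δ₃ δ₄)) (min (min δ₅ δ₆) (min c c')) with hδ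
  have d0 : 0 < δ := by positivity
  have d1 : δ ≤ δ₁ := (min_le_left _ _).trans ((min_le_left _ _).trans (min_le_left _ _))
  have d2 : δ ≤ δ₂ := (min_le_left _ _).trans ((min_le_left _ _).trans (min_le_right _ _))
  have d3 : δ ≤ δ₃ := (min_le_left _ _).trans ((min_le_right _ _).trans (min_le_left _ _))
  have d4 : δ ≤ δ₄ := (min_le_left _ _).trans ((min_le_right _ _).trans (min_le_right _ _))
  have d5 : δ ≤ δ₅ := (min_le_right _ _).trans ((min_le_left _ _).trans (min_le_left _ _))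
  have d6 : δ ≤ δ₆ := (min_le_right _ _).trans ((min_le_left _ _).trans (min_le_right _ _))
  have d7 : δ ≤ c := (min_le_right _ _).trans ((min_le_right _ _).trans (min_le_left _ _))
  have d8 : δ ≤ c' := (min_le_right _ _).trans ((min_le_right _ _).trans (min_le_right _ _))
  have cond : (S * n' - a * n') * (U * n - b * n) < a' * n * (b' * n') := by
    have e4 := mul_lt_mul_of_pos_left hlt (mul_pos hn0 hn0')
    calc (S * n' - a * n') * (U * n - b * n) = n * n' * ((S - a) * (U - b)) := by ring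
      _ < n * n' * (a' * b') := e4
      _ = _ := by ring
  have hX : ULC M := ulc_of_charted (X := M) (E := E)
  have eS' : ∀ x y, WS Sy.g x y ↔ WS Sy'.g x y := fun x y => by
    rw [hg, hg', Pool.Agent.TH289.WS_iter_iff _ hn1, Pool.Agent.TH289.WS_iter_iff _ hn1',
      ← Pool.Agent.TH289.asym_iff, ← Pool.Agent.TH289.asym_iff]
    exact eS x y
  have eU' : ∀ x y, WS Sy.g.symm x y ↔ WS Sy'.g.symm x y := fun x y => by
    rw [hg, hg', hsym, hsym', Pool.Agent.TH289.WS_iter_iff _ hn1,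
      Pool.Agent.TH289.WS_iter_iff _ hn1', ← Pool.Agent.TH289.asym_iff,
      ← Pool.Agent.TH289.asym_iff]
    exact eU x y
  obtain ⟨br, δb, ε₁, ρ, η, δm, A, K, hρ, hδm, hsq, HF⟩ := pair_frames hLP hLP' hX eS' eU' d0 d7 d8
    (mul_pos ha hn0') (mul_pos ha' hn0) (mul_le_mul_of_nonneg_right haS hn0'.le) (mul_pos hb hn0)
    (mul_pos hb' hn0') (mul_le_mul_of_nonneg_right hbU hn0.le) cond (R1 δ d0 d1) (R2 δ d0 d2)
    (R3 δ d0 d3) (R4 δ d0 d4) (R5 δ d0 d5) (R6 δ d0 d6)
  have hall : ∀ a s, WS Sy.g a s → Lf Sy.g a s :=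
    lf_of_frames hLP hX hρ fun N => (HF N).imp fun n hn => hn.2
  have : ProperSpace E := FiniteDimensional.proper_real E
  obtain ⟨a1, a2, q₀, hq₀⟩ := abs_main (E' := E) Qsx.main Sy hLP hall hn1 hg
  obtain ⟨c₁, hc₁, hsl⟩ := Pool.Agent.Y330.H.exists_sl hLP
  have hex := ex_of_lf hLP hc₁ hsl hall
  have hpg := growth_of_frames hLP hX hex hρ hδm hsq A K HF
  have hgi : ∀ x, Sy.g x = f^[n] x := fun x => by rw [hg]; rfl
  refine ⟨conclude f hgi a1, fun x => ?_, a2, ⟨q₀, hq₀, covering_surj hq₀⟩, hpg⟩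
  rw [Metric.mem_closure_iff]
  intro ε hε
  obtain ⟨y, N, hN1, hy, hd⟩ := Pool.Agent.H779R2.An.periodic_dense Sy a1 x ε hε
  refine ⟨y, ⟨n * N, Nat.mul_pos hn1 hN1, ?_⟩, by rwa [dist_comm]⟩
  rw [Function.IsPeriodicPt, Function.IsFixedPt]
  have h3 : Sy.g^[N] = f^[n * N] := by
    rw [Function.iterate_mul]
    congr 1
    funext x
    exact hgi x
  rw [← h3]
  exact hy

/-- Room in the entropy criterion. -/
theorem exists_rates_pair {s u h k t v : ℝ} {ds du : ℕ} (hs : 0 < s) (hu : 0 < u) (ht : 0 < t)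
    (hv : 0 < v) (hlt : max 0 (k - ds * s) * max 0 (h - du * u) < t * v) :
    ∃ s' u' t' v' h' k' : ℝ, 0 < s' ∧ s' < s ∧ 0 < u' ∧ u' < u ∧ 0 < t' ∧ t' < t ∧ 0 < v' ∧
      v' < v ∧ h < h' ∧ k < k' ∧ max 0 (k' - ds * s') * max 0 (h' - du * u') < t' * v' := by
  have hcont : ContinuousAt (fun ε : ℝ => (t - ε) * (v - ε) -
      max 0 (k + ε - ds * (s - ε)) * max 0 (h + ε - du * (u - ε))) 0 := by
    fun_prop
  have h0 : 0 < (fun ε : ℝ => (t - ε) * (v - ε) -
      max 0 (k + ε - ds * (s - ε)) * max 0 (h + ε - du * (u - ε))) 0 := by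
    simp only [sub_zero, add_zero]
    linarith
  have h1 := hcont.eventually (lt_mem_nhds h0)
  obtain ⟨δ, hδ, hball⟩ := Metric.eventually_nhds_iff.1 h1
  set ε := min (δ / 2) (min (min (s / 2) (u / 2)) (min (t / 2) (v / 2))) with hε
  have e0 : 0 < ε := by positivity
  have e1 : ε ≤ δ / 2 := min_le_left _ _
  have e2 : ε ≤ s / 2 := (min_le_right _ _).trans ((min_le_left _ _).trans (min_le_left _ _))
  have e3 : ε ≤ u / 2 := (min_le_right _ _).trans ((min_le_left _ _).trans (min_le_right _ _))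
  have e4 : ε ≤ t / 2 := (min_le_right _ _).trans ((min_le_right _ _).trans (min_le_left _ _))
  have e5 : ε ≤ v / 2 := (min_le_right _ _).trans ((min_le_right _ _).trans (min_le_right _ _))
  have h2 := hball (y := ε) (by rw [Real.dist_eq, sub_zero, abs_of_pos e0]; linarith)
  refine ⟨s - ε, u - ε, t - ε, v - ε, h + ε, k + ε, by linarith, by linarith, by linarith,
    by linarith, by linarith, by linarith, by linarith, by linarith, by linarith, by linarith, ?_⟩
  have h3 : 0 < (t - ε) * (v - ε) -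
      max 0 (k + ε - ds * (s - ε)) * max 0 (h + ε - du * (u - ε)) := h2
  linarith

/-- The entropy criterion for a pair. -/
theorem pair_entropy (f h : Diffeomorph 𝓘(ℝ, E) 𝓘(ℝ, E) M M 1)
    (Es Eu Es' Eu' : ∀ x : M, Submodule ℝ (TangentSpace 𝓘(ℝ, E) x)) (hA : IsAnosov f Es Eu)
    (hB : IsAnosov h Es' Eu') (eS : ∀ x y, Asym f x y ↔ Asym h x y)
    (eU : ∀ x y, Asym f.symm x y ↔ Asym h.symm x y) (ds du : ℕ)
    (hds : ∀ x, Module.finrank ℝ (Es' x) = ds) (hdu : ∀ x, Module.finrank ℝ (Eu x) = du)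
    (s u t v kf kh : ℝ) (hs : 0 < s) (hu : 0 < u) (ht : 0 < t) (hv : 0 < v)
    (h1 : ContractsAt h Es' s) (h2 : ContractsAt f.symm Eu u) (h3 : ContractsAt f Es t)
    (h4 : ContractsAt h.symm Eu' v) (h5 : topEntropy f ≤ (kf : EReal))
    (h6 : topEntropy h ≤ (kh : EReal))
    (hlt : max 0 (kh - ds * s) * max 0 (kf - du * u) < t * v) :
    TopTransitive f ∧ Dense (Function.periodicPts f) ∧ GPS f.toHomeomorph ∧
      (∃ q : E → M, IsCoveringMap q ∧ Function.Surjective q) ∧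
      ∃ d : ℕ, ∀ (x : M) (S : Set (FundamentalGroup M x)), S.Finite →
        ∃ C : ℕ, ∀ n : ℕ, (S ^ n).ncard ≤ C * (n + 1) ^ d := by
  obtain ⟨s', u', t', v', h', k', hs'0, hs', hu'0, hu', ht'0, ht', hv'0, hv', hh', hk', hlt'⟩ :=
    exists_rates_pair hs hu ht hv hlt
  have hA' := Pool.Agent.W740.TU.anosov_symm f Es Eu hA
  have hB' := Pool.Agent.W740.TU.anosov_symm h Es' Eu' hB
  have c1 : CoarseContracts h s' := coarse_of_contractsAt h Es' Eu' hB s h1 s' hs'0 hs'
  have c2 : CoarseContracts f.symm u' := coarse_of_contractsAt f.symm Eu Es hA' u h2 u' hu'0 hu'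
  have c3 : CoarseContracts f t' := coarse_of_contractsAt f Es Eu hA t h3 t' ht'0 ht'
  have c4 : CoarseContracts h.symm v' := coarse_of_contractsAt h.symm Eu' Es' hB' v h4 v' hv'0 hv'
  have hE : topEntropy f < (h' : EReal) := lt_of_le_of_lt h5 (by exact_mod_cast hh')
  have hE' : topEntropy h < (k' : EReal) := lt_of_le_of_lt h6 (by exact_mod_cast hk')
  set S' := max s' (k' - (ds - 1) * s') with hS'
  set U' := max u' (h' - (du - 1) * u') with hU'
  have q1 : s' ≤ S' := le_max_left _ _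
  have q2 : u' ≤ U' := le_max_left _ _
  have c5 : CoarseExpands h.toHomeomorph S' := by
    refine coarseExpands_of_entropy h Es' Eu' hB ds hds s' S' hs'0 (hs'0.trans_le q1) c1
      (Or.inl (lt_of_lt_of_le hE' ?_))
    have : k' ≤ S' + (ds - 1) * s' := by
      have := le_max_right s' (k' - (ds - 1) * s')
      linarith
    exact_mod_cast this
  have c6 : CoarseExpands f.toHomeomorph.symm U' := by
    refine coarseExpands_of_entropy f.symm Eu Es hA' du
      hdu u' U' hu'0 (hu'0.trans_le q2) c2 (Or.inr (lt_of_lt_of_le (b := (h' : EReal)) hE ?_))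
    have : h' ≤ U' + (du - 1) * u' := by
      have := le_max_right u' (h' - (du - 1) * u')
      linarith
    exact_mod_cast this
  refine pair_pinching f h Es Eu Es' Eu' hA hB eS eU s' S' t' u' v' U' hs'0 q1 hu'0 q2 ht'0 hv'0
    c1 c5 c2 c6 c3 c4 ?_
  have e1 : S' - s' = max 0 (k' - ds * s') := by
    rw [hS', max_sub_sub_right s' _ s' |>.symm, sub_self]
    congr 1
    ring
  have e2 : U' - u' = max 0 (h' - du * u') := by
    rw [hU', max_sub_sub_right u' _ u' |>.symm, sub_self]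
    congr 1
    ring
  rw [e1, e2]
  exact hlt'

end manifold

end Pool.Agent.T9h69.CF
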