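import Pool.Agent.T9h69.CF.Eq

set_option autoImplicit false
set_option linter.unusedSectionVars false

/-! Rates of two homeomorphisms with the same local stable sets, and the choice of the frames. -/

open Filter Topology Set Metric unitInterval

namespace Pool.Agent.T9h69.CF

open Pool.Agent.H789R2.AN Pool.Agent.H789R2.GP Pool.Agent.N234.CP Pool.Agent.Y330.J

theorem half_num {C₁ C₂ C₃ a S T : ℝ} (h1 : 1 ≤ C₁) (h2 : 1 ≤ C₂) (h3 : 1 ≤ C₃) (haS : a ≤ S)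
    {N k : ℕ} (hk : C₁ ≤ Real.exp (a * k))
    (hT : C₂ * (2 * C₁ * C₃ + 1) * ((N + 1) * Real.exp ((S - a) * k)) ≤ T) :
    ∃ B : ℕ, 1 ≤ B ∧ C₁ * B ≤ Real.exp (a * k) ∧
      C₂ * ((N * ⌊C₃ * Real.exp (S * k)⌋₊ / B + 1 : ℕ) : ℝ) ≤ T := by
  have hC₁ : 0 < C₁ := by linarith
  have he : 0 < Real.exp (a * k) := Real.exp_pos _
  set t := Real.exp (a * k) / C₁ with ht
  have ht1 : 1 ≤ t := by rwa [ht, le_div_iff₀ hC₁, one_mul]
  have hB1 : 1 ≤ ⌊t⌋₊ := Nat.le_floor (by exact_mod_cast ht1)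
  have hB0 : (0 : ℝ) < (⌊t⌋₊ : ℝ) := by
    have : (1 : ℝ) ≤ (⌊t⌋₊ : ℝ) := by exact_mod_cast hB1
    linarith
  have hBt : (⌊t⌋₊ : ℝ) ≤ t := Nat.floor_le (by linarith)
  have hBt2 : t ≤ 2 * (⌊t⌋₊ : ℝ) := by
    have a1 : t < ⌊t⌋₊ + 1 := Nat.lt_floor_add_one t
    have a2 : (1 : ℝ) ≤ (⌊t⌋₊ : ℝ) := by exact_mod_cast hB1
    linarith
  refine ⟨⌊t⌋₊, hB1, ?_, ?_⟩
  · calc C₁ * (⌊t⌋₊ : ℝ) ≤ C₁ * t := mul_le_mul_of_nonneg_left hBt hC₁.le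
      _ = _ := by rw [ht]; field_simp
  · set L := ⌊C₃ * Real.exp (S * k)⌋₊ with hL
    have hL1 : (L : ℝ) ≤ C₃ * Real.exp (S * k) := Nat.floor_le (by positivity)
    have a1 : ((N * L / ⌊t⌋₊ : ℕ) : ℝ) ≤ (N * L : ℕ) / (⌊t⌋₊ : ℝ) := Nat.cast_div_le
    have a2 : ((N * L : ℕ) : ℝ) / (⌊t⌋₊ : ℝ) ≤ 2 * C₁ * C₃ * (N * Real.exp ((S - a) * k)) := by
      rw [div_le_iff₀ hB0]
      have b1 : Real.exp (S * k) = Real.exp ((S - a) * k) * Real.exp (a * k) := by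
        rw [← Real.exp_add]; congr 1; ring
      have b2 : Real.exp (a * k) = C₁ * t := by rw [ht]; field_simp
      have b3 : C₁ * t ≤ C₁ * (2 * (⌊t⌋₊ : ℝ)) := mul_le_mul_of_nonneg_left hBt2 hC₁.le
      calc ((N * L : ℕ) : ℝ) = N * L := by push_cast; ring
        _ ≤ N * (C₃ * Real.exp (S * k)) := mul_le_mul_of_nonneg_left hL1 (Nat.cast_nonneg _)
        _ = N * C₃ * Real.exp ((S - a) * k) * (C₁ * t) := by rw [b1, b2]; ring
        _ ≤ N * C₃ * Real.exp ((S - a) * k) * (C₁ * (2 * (⌊t⌋₊ : ℝ))) :=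
            mul_le_mul_of_nonneg_left b3 (by positivity)
        _ = _ := by ring
    have hE1 : 1 ≤ Real.exp ((S - a) * k) := by
      apply Real.one_le_exp
      exact mul_nonneg (by linarith) (Nat.cast_nonneg _)
    have a3 : ((N * L / ⌊t⌋₊ + 1 : ℕ) : ℝ) ≤ (2 * C₁ * C₃ + 1) *
        ((N + 1) * Real.exp ((S - a) * k)) := by
      push_cast
      push_cast at a1 a2
      have c1 : (0 : ℝ) ≤ N := Nat.cast_nonneg _
      have c2 : 0 ≤ 2 * C₁ * C₃ := by positivity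
      have c3 : (N : ℝ) * Real.exp ((S - a) * k) ≤ (N + 1) * Real.exp ((S - a) * k) :=
        mul_le_mul_of_nonneg_right (by linarith) (by linarith)
      have c4 : 1 ≤ ((N : ℝ) + 1) * Real.exp ((S - a) * k) := by nlinarith
      have c5 := mul_le_mul_of_nonneg_left c3 c2
      linarith
    calc C₂ * ((N * L / ⌊t⌋₊ + 1 : ℕ) : ℝ) ≤ C₂ * ((2 * C₁ * C₃ + 1) *
        ((N + 1) * Real.exp ((S - a) * k))) := mul_le_mul_of_nonneg_left a3 (by linarith)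
      _ = C₂ * (2 * C₁ * C₃ + 1) * ((N + 1) * Real.exp ((S - a) * k)) := by ring
      _ ≤ T := hT

theorem log_succ_le (n : ℕ) : Real.log ((n : ℝ) + 1) ≤ (Nat.log 2 (n + 1) : ℝ) + 1 := by
  have hn1 : (0 : ℝ) < (n : ℝ) + 1 := by positivity
  have b1 : n + 1 < 2 ^ (Nat.log 2 (n + 1) + 1) :=
    Nat.lt_pow_succ_log_self (by norm_num) _
  have b2 : ((n : ℝ) + 1) ≤ 2 ^ (Nat.log 2 (n + 1) + 1) := by exact_mod_cast b1.le
  have b3 := Real.log_le_log hn1 b2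
  rw [Real.log_pow] at b3
  have b4 : Real.log 2 ≤ 1 := by
    have := Real.log_two_lt_d9
    linarith
  have b5 : (0 : ℝ) ≤ ((Nat.log 2 (n + 1) + 1 : ℕ) : ℝ) := Nat.cast_nonneg _
  calc _ ≤ ((Nat.log 2 (n + 1) + 1 : ℕ) : ℝ) * Real.log 2 := b3
    _ ≤ ((Nat.log 2 (n + 1) + 1 : ℕ) : ℝ) * 1 := mul_le_mul_of_nonneg_left b4 b5
    _ = _ := by push_cast; ring

/-- The choice of the two times. -/
theorem choose_km {a a' S b b' U : ℝ} (ha : 0 < a) (ha' : 0 < a') (hS : a ≤ S) (hb : 0 < b)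
    (hb' : 0 < b') (hU : b ≤ U) (hc : (S - a) * (U - b) < a' * b')
    {C₁ C₂ C₃ D₁ D₂ D₃ : ℝ} (h1 : 1 ≤ C₁) (h2 : 1 ≤ C₂) (h3 : 1 ≤ C₃) (k1 : 1 ≤ D₁) (k2 : 1 ≤ D₂)
    (k3 : 1 ≤ D₃) : ∃ A K : ℕ, ∀ N : ℕ, ∃ k m : ℕ, k + m ≤ A + K * Nat.log 2 (N + 1) ∧
      (∃ B : ℕ, 1 ≤ B ∧ C₁ * B ≤ Real.exp (a * k) ∧
        C₂ * ((N * ⌊C₃ * Real.exp (S * k)⌋₊ / B + 1 : ℕ) : ℝ) ≤ Real.exp (a' * m)) ∧
      ∃ B : ℕ, 1 ≤ B ∧ D₁ * B ≤ Real.exp (b * m) ∧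
        D₂ * ((N * ⌊D₃ * Real.exp (U * m)⌋₊ / B + 1 : ℕ) : ℝ) ≤ Real.exp (b' * k) := by
  obtain ⟨K, hK, hkm⟩ := exists_km_bd (σ₁ := S - a + a') (σ₂ := a') (υ₁ := U - b + b') (υ₂ := b')
    ha' (by linarith) hb' (by linarith) (by
      have e1 : S - a + a' - a' = S - a := by ring
      have e2 : U - b + b' - b' = U - b := by ring
      rw [e1, e2]
      exact hc)
  set X₁ := C₂ * (2 * C₁ * C₃ + 1) with hX₁
  set X₂ := D₂ * (2 * D₁ * D₃ + 1) with hX₂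
  have hX₁1 : 1 ≤ X₁ := by
    have : 1 ≤ 2 * C₁ * C₃ + 1 := by nlinarith
    nlinarith
  have hX₂1 : 1 ≤ X₂ := by
    have : 1 ≤ 2 * D₁ * D₃ + 1 := by nlinarith
    nlinarith
  have l1 : 0 ≤ Real.log X₁ := Real.log_nonneg hX₁1
  have l2 : 0 ≤ Real.log X₂ := Real.log_nonneg hX₂1
  have l3 : 0 ≤ Real.log C₁ := Real.log_nonneg h1
  have l4 : 0 ≤ Real.log D₁ := Real.log_nonneg k1
  set α₁ := Real.log X₁ + a' * (Real.log D₁ / b) with hα₁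
  set α₂ := Real.log X₂ + b' * (Real.log C₁ / a) with hα₂
  have p1 : 0 ≤ a' * (Real.log D₁ / b) := by positivity
  have p2 : 0 ≤ b' * (Real.log C₁ / a) := by positivity
  have hα₁0 : 0 ≤ α₁ := by linarith
  have hα₂0 : 0 ≤ α₂ := by linarith
  refine ⟨⌈K * (1 + α₁ + α₂ + 2)⌉₊, ⌈2 * K⌉₊, fun N => ?_⟩
  have hN1 : (0 : ℝ) < (N : ℝ) + 1 := by positivity
  have hlog0 : 0 ≤ Real.log ((N : ℝ) + 1) := Real.log_nonneg (by
    have : (0 : ℝ) ≤ N := Nat.cast_nonneg _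
    linarith)
  obtain ⟨k, m, q1, q2, q3⟩ := hkm (α₁ + Real.log (N + 1)) (α₂ + Real.log (N + 1))
  have r1 : α₁ + Real.log (N + 1) + (S - a) * k ≤ a' * m := by nlinarith
  have r2 : α₂ + Real.log (N + 1) + (U - b) * m ≤ b' * k := by nlinarith
  have s1 : 0 ≤ (S - a) * k := mul_nonneg (by linarith) (Nat.cast_nonneg _)
  have s2 : 0 ≤ (U - b) * m := mul_nonneg (by linarith) (Nat.cast_nonneg _)
  refine ⟨k, m, ?_, ?_, ?_⟩
  · rw [abs_of_nonneg (by linarith), abs_of_nonneg (by linarith)] at q3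
    have e1 := log_succ_le N
    have e2 : ((k + m : ℕ) : ℝ) ≤ K * (1 + α₁ + α₂ + 2) + 2 * K * (Nat.log 2 (N + 1) : ℝ) := by
      refine q3.trans ?_
      have : K * (1 + (α₁ + Real.log (N + 1)) + (α₂ + Real.log (N + 1))) ≤
          K * (1 + α₁ + α₂ + 2 * ((Nat.log 2 (N + 1) : ℝ) + 1)) :=
        mul_le_mul_of_nonneg_left (by linarith) hK
      refine this.trans (le_of_eq ?_)
      ring
    have e3 : ((k + m : ℕ) : ℝ) ≤ ((⌈K * (1 + α₁ + α₂ + 2)⌉₊ +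
        ⌈2 * K⌉₊ * Nat.log 2 (N + 1) : ℕ) : ℝ) := by
      push_cast
      push_cast at e2
      have c1 := Nat.le_ceil (K * (1 + α₁ + α₂ + 2))
      have c2 := mul_le_mul_of_nonneg_right (Nat.le_ceil (2 * K))
        (Nat.cast_nonneg (α := ℝ) (Nat.log 2 (N + 1)))
      linarith
    exact_mod_cast e3
  · apply half_num h1 h2 h3 hS
    · have e1 : Real.log C₁ / a ≤ k := by
        have : b' * (Real.log C₁ / a) ≤ b' * k := by linarith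
        exact le_of_mul_le_mul_left this hb'
      rw [div_le_iff₀ ha] at e1
      calc C₁ = Real.exp (Real.log C₁) := (Real.exp_log (by linarith)).symm
        _ ≤ _ := Real.exp_le_exp.mpr (by linarith)
    · calc X₁ * ((N + 1) * Real.exp ((S - a) * k))
          = Real.exp (Real.log X₁ + Real.log (N + 1) + (S - a) * k) := by
            rw [Real.exp_add, Real.exp_add, Real.exp_log (by linarith), Real.exp_log hN1]
            ring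
        _ ≤ _ := Real.exp_le_exp.mpr (by linarith)
  · apply half_num k1 k2 k3 hU
    · have e1 : Real.log D₁ / b ≤ m := by
        have : a' * (Real.log D₁ / b) ≤ a' * m := by linarith
        exact le_of_mul_le_mul_left this ha'
      rw [div_le_iff₀ hb] at e1
      calc D₁ = Real.exp (Real.log D₁) := (Real.exp_log (by linarith)).symm
        _ ≤ _ := Real.exp_le_exp.mpr (by linarith)
    · calc X₂ * ((N + 1) * Real.exp ((U - b) * m))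
          = Real.exp (Real.log X₂ + Real.log (N + 1) + (U - b) * m) := by
            rw [Real.exp_add, Real.exp_add, Real.exp_log (by linarith), Real.exp_log hN1]
            ring
        _ ≤ _ := Real.exp_le_exp.mpr (by linarith)

variable {X : Type*} [MetricSpace X] [CompactSpace X]

theorem Steps.sub {F H : X ≃ₜ X} {δ ε : ℝ} (h : ∀ x y, SR F δ x y → SR H ε x y) {N : ℕ} {x y : X}
    (hs : Steps F δ N x y) : Steps H ε N x y := by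
  obtain ⟨z, z0, z1, z2⟩ := hs
  exact ⟨z, z0, z1, fun i hi => h _ _ (z2 i hi)⟩

/-- grouping the steps -/
theorem Steps.group {P : X ≃ₜ X} {δ ρ : ℝ} {T : X → X} {B : ℕ} (hB : 1 ≤ B)
    (h : ∀ N ≤ B, ∀ x y, Steps P δ N x y → SR P ρ (T x) (T y)) {N : ℕ} {x y : X}
    (hs : Steps P δ N x y) : Steps P ρ (N / B + 1) (T x) (T y) := by
  obtain ⟨z, z0, z1, z2⟩ := hs
  refine ⟨fun i => T (z (min (i * B) N)), by simp [z0], ?_, fun i hi => ?_⟩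
  · have h1 : N < (N / B + 1) * B := by
      have := Nat.lt_div_mul_add (a := N) (b := B) (by omega)
      rw [Nat.add_mul, one_mul]
      exact this
    simp only [min_eq_right h1.le, z1]
  · have h2 : min (i * B) N ≤ min ((i + 1) * B) N := by
      apply min_le_min_right
      rw [Nat.add_mul, one_mul]; omega
    have h3 : min ((i + 1) * B) N ≤ N := min_le_right _ _
    refine h (min ((i + 1) * B) N - min (i * B) N) ?_ _ _
      ⟨fun t => z (min (i * B) N + t), by simp, ?_, fun t ht => ?_⟩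
    · rw [Nat.add_mul, one_mul]
      omega
    · simp only [Nat.add_sub_cancel' h2]
    · have h4 := z2 (min (i * B) N + t) (by omega)
      rw [Nat.add_assoc] at h4
      exact h4

/-- contraction by `P`, then by `Q` -/
theorem two_step {R P Q : X ≃ₜ X} {cP cQ δP δQ σP σQ : ℝ} (hP : LP P cP) (hQ : LP Q cQ)
    (hσP : 0 < σP) (hσQ : 0 < σQ) (hδP : 0 < δP) (hδP' : δP ≤ cP) (hδQ : 0 < δQ) (hδQ' : δQ ≤ cQ)
    (hLP : LoRate P δP σP) (hLQ : LoRate Q δQ σQ) (s1 : Sub R P) (s2 : Sub P Q) (s3 : Sub Q R) :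
    ∃ δ > 0, ∀ ρ > 0, ∃ C₁ C₂ : ℝ, 1 ≤ C₁ ∧ 1 ≤ C₂ ∧ ∀ δ₁ ≤ δ, ∀ (B k m i : ℕ) (u v : X),
      1 ≤ B → C₁ * B ≤ Real.exp (σP * k) → C₂ * ((i / B + 1 : ℕ) : ℝ) ≤ Real.exp (σQ * m) →
      Steps R δ₁ i u v → SR R ρ (Q^[m] (P^[k] u)) (Q^[m] (P^[k] v)) := by
  obtain ⟨δ, hδ, e1⟩ := s1 δP hδP
  obtain ⟨η₂, hη₂, e2⟩ := s2 δQ hδQ
  obtain ⟨C₁, hC₁, V1⟩ := hLP.fine hP hσP hδP' hη₂
  refine ⟨δ, hδ, fun ρ hρ => ?_⟩
  obtain ⟨η₃, hη₃, e3⟩ := s3 ρ hρ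
  obtain ⟨C₂, hC₂, V2⟩ := hLQ.fine hQ hσQ hδQ' hη₃
  refine ⟨C₁, C₂, hC₁, hC₂, fun δ₁ hδ₁ B k m i u v hB h1 h2 hs => ?_⟩
  have t1 : Steps P δP i u v := Steps.sub e1 (hs.mono hδ₁)
  have t2 : Steps P η₂ (i / B + 1) (P^[k] u) (P^[k] v) := by
    refine Steps.group hB (fun N hN x y hxy => ?_) t1
    refine V1 N k x y (le_trans ?_ h1) hxy
    exact mul_le_mul_of_nonneg_left (by exact_mod_cast hN) (by linarith)
  exact e3 _ _ (V2 _ m _ _ h2 (Steps.sub e2 t2))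

/-- expansion by the inverse of `P` -/
theorem up_sub {R P : X ≃ₜ X} {cP δP S : ℝ} (hP : LP P cP) (hδP : 0 < δP) (hδP' : δP ≤ cP)
    (hU : UpRate P δP S) (s1 : Sub R P) (s3 : Sub P R) :
    ∃ δ > 0, ∀ ρ > 0, ∃ C : ℝ, 1 ≤ C ∧ ∀ (k : ℕ) (x y : X), SR R δ x y →
      ∃ M ≤ ⌊C * Real.exp (S * k)⌋₊, Steps R ρ M (P.symm^[k] x) (P.symm^[k] y) := by
  obtain ⟨δ, hδ, e1⟩ := s1 δP hδP
  refine ⟨δ, hδ, fun ρ hρ => ?_⟩
  obtain ⟨η₃, hη₃, e3⟩ := s3 ρ hρ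
  obtain ⟨C, hC, V⟩ := hU.fine hP hδP' hη₃
  refine ⟨C, hC, fun k x y hxy => ?_⟩
  obtain ⟨M, hM, hs⟩ := V x y (e1 _ _ hxy) k
  exact ⟨M, Nat.le_floor hM, Steps.sub e3 hs⟩

end Pool.Agent.T9h69.CF
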