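import Pool.Agent.T9h69.CF.Num
import Pool.Agent.T9h69.CF.Growth
import Pool.Agent.H721R2.Build

set_option autoImplicit false
set_option linter.unusedSectionVars false

/-! Frames for two hyperbolic homeomorphisms with the same stable sets and the same unstable
sets. -/

open Filter Topology Set Metric unitInterval

namespace Pool.Agent.T9h69.CF

open Pool.Agent.H721R2
open Pool.Agent.H789R2.AN Pool.Agent.H789R2.GP Pool.Agent.N234.CP Pool.Agent.Y330.J

variable {X : Type*} [MetricSpace X] [CompactSpace X]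

theorem pair_frames {F H : X ≃ₜ X} {c d : ℝ} (hF : LP F c) (hH : LP H d) (hX : ULC X)
    (eS : ∀ x y, WS F x y ↔ WS H x y) (eU : ∀ x y, WS F.symm x y ↔ WS H.symm x y)
    {δ₀ : ℝ} (hδ₀ : 0 < δ₀) (hδc : δ₀ ≤ c) (hδd : δ₀ ≤ d)
    {a a' S b b' U : ℝ} (ha : 0 < a) (ha' : 0 < a') (hS : a ≤ S) (hb : 0 < b)
    (hb' : 0 < b') (hU : b ≤ U) (hcond : (S - a) * (U - b) < a' * b')
    (r1 : LoRate H δ₀ a) (r2 : LoRate F δ₀ a') (r3 : LoRate F.symm δ₀ b)
    (r4 : LoRate H.symm δ₀ b') (r5 : UpRate H δ₀ S) (r6 : UpRate F.symm δ₀ U) :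
    ∃ (br : X → X → X) (δb δ₁ ρ η δm : ℝ) (A K : ℕ), 0 < ρ ∧ 0 < δm ∧
      (∀ ψ : X ≃ₜ X, (∀ x, ψ (F x) = F (ψ x)) → Sq F δ₁ ψ) ∧
      ∀ N : ℕ, ∃ n ≤ A + K * Nat.log 2 (N + 1), HFr F c br δb δ₁ ρ η δm N n := by
  have hc := hF.c_pos
  have sFH : Sub F H := sub_of_ws hF hH hX fun x y h => (eS x y).1 h
  have sHF : Sub H F := sub_of_ws hH hF hX fun x y h => (eS x y).2 h
  have uFH : Sub F.symm H.symm := sub_of_ws hF.symm hH.symm hX fun x y h => (eU x y).1 h
  have uHF : Sub H.symm F.symm := sub_of_ws hH.symm hF.symm hX fun x y h => (eU x y).2 h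
  obtain ⟨br, δb, hbr⟩ := exists_BrP hF
  obtain ⟨δq, hδq, hsq⟩ := square' hF hX
  obtain ⟨δA, hδA, TA⟩ := two_step hH hF ha ha' hδ₀ hδd hδ₀ hδc r1 r2 sFH sHF (Sub.refl F)
  obtain ⟨δB, hδB, TB⟩ := two_step hF.symm hH.symm hb hb' hδ₀ hδc hδ₀ hδd r3 r4
    (Sub.refl F.symm) uFH uHF
  obtain ⟨δC, hδC, TC⟩ := up_sub hH hδ₀ hδd r5 sFH sHF
  obtain ⟨δD, hδD, TD⟩ := up_sub hF.symm hδ₀ hδc r6 (Sub.refl F.symm) (Sub.refl F.symm)
  obtain ⟨c₂, hc₂, e1⟩ := sHF c hc
  obtain ⟨c', hc', e2⟩ := sFH c₂ hc₂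
  set δm := min (c / 3) (min (c' / 3) (c₂ / 3)) with hδm
  have m0 : 0 < δm := by positivity
  have m1 : 3 * δm ≤ c := by linarith [min_le_left (c / 3) (min (c' / 3) (c₂ / 3))]
  have m2 : 3 * δm ≤ c' := by
    linarith [(min_le_right (c / 3) (min (c' / 3) (c₂ / 3))).trans (min_le_left _ _)]
  have m3 : 3 * δm ≤ c₂ := by
    linarith [(min_le_right (c / 3) (min (c' / 3) (c₂ / 3))).trans (min_le_right _ _)]
  obtain ⟨δh', hδh', e3⟩ := sHF δm m0
  set δh := min δh' δm with hδh
  have h0 : 0 < δh := lt_min hδh' m0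
  have h1 : δh ≤ δh' := min_le_left _ _
  have h2 : δh ≤ δm := min_le_right _ _
  obtain ⟨ε₄, hε₄, e4⟩ := sFH δh h0
  obtain ⟨ε₅, hε₅, e5⟩ := uFH δm m0
  set δ₁ := min (min (min ε₄ ε₅) (min δA δB)) (min (min δm (c' / 2)) (min (c / 3) δq)) with hδ₁
  have d0 : 0 < δ₁ := by positivity
  have d1 : δ₁ ≤ ε₄ := (min_le_left _ _).trans ((min_le_left _ _).trans (min_le_left _ _))
  have d2 : δ₁ ≤ ε₅ := (min_le_left _ _).trans ((min_le_left _ _).trans (min_le_right _ _))
  have d3 : δ₁ ≤ δA := (min_le_left _ _).trans ((min_le_right _ _).trans (min_le_left _ _))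
  have d4 : δ₁ ≤ δB := (min_le_left _ _).trans ((min_le_right _ _).trans (min_le_right _ _))
  have d5 : δ₁ ≤ δm := (min_le_right _ _).trans ((min_le_left _ _).trans (min_le_left _ _))
  have d6 : 2 * δ₁ ≤ c' := by
    have : δ₁ ≤ c' / 2 := (min_le_right _ _).trans ((min_le_left _ _).trans (min_le_right _ _))
    linarith
  have d7 : 3 * δ₁ ≤ c := by
    have : δ₁ ≤ c / 3 := (min_le_right _ _).trans ((min_le_right _ _).trans (min_le_left _ _))
    linarith
  have d8 : δ₁ ≤ δq := (min_le_right _ _).trans ((min_le_right _ _).trans (min_le_right _ _))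
  obtain ⟨η₁, hη₁, hb2⟩ := hbr.b2 δ₁ d0
  set η := min η₁ δb with hη
  have n0 : 0 < η := lt_min hη₁ hbr.pos
  obtain ⟨ηg, hηg, hgap⟩ := qs_SR_of_dist hF δ₁ d0
  set ρ := min (min δ₁ (min (η / 4) (ηg / 4))) (min δC δD) with hρ
  have p0 : 0 < ρ := by positivity
  have p1 : ρ ≤ δ₁ := (min_le_left _ _).trans (min_le_left _ _)
  have p2 : ρ ≤ η / 4 := (min_le_left _ _).trans ((min_le_right _ _).trans (min_le_left _ _))
  have p3 : ρ ≤ ηg / 4 := (min_le_left _ _).trans ((min_le_right _ _).trans (min_le_right _ _))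
  have p4 : ρ ≤ δC := (min_le_right _ _).trans (min_le_left _ _)
  have p5 : ρ ≤ δD := (min_le_right _ _).trans (min_le_right _ _)
  obtain ⟨C₁, C₂, hC₁, hC₂, TA'⟩ := TA ρ p0
  obtain ⟨D₁, D₂, hD₁, hD₂, TB'⟩ := TB ρ p0
  obtain ⟨C₃, hC₃, TC'⟩ := TC ρ p0
  obtain ⟨D₃, hD₃, TD'⟩ := TD ρ p0
  obtain ⟨A, K, hAK⟩ := choose_km ha ha' hS hb hb' hU hcond hC₁ hC₂ hC₃ hD₁ hD₂ hD₃
  refine ⟨br, δb, δ₁, ρ, η, δm, A, K, p0, m0, fun ψ hψ => ?_, fun N => ?_⟩
  · intro a b d e α β β' α' hα hβ hβ' hα' s1 s2 s3 s4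
    exact hsq ψ hψ hα hβ hβ' hα' (s1.mono d8) (s2.mono d8) (s3.mono d8) (s4.mono d8)
  obtain ⟨k, m, hkm, ⟨B, hB1, hB2, hB3⟩, B', hB1', hB2', hB3'⟩ := hAK N
  refine ⟨k + m, hkm, (iterHomeo H k).symm, iterHomeo F m,
    fun i => if i ≤ k then (iterHomeo H (k - i)).symm else iterHomeo F (i - k),
    ⌊D₃ * Real.exp (U * m)⌋₊, ⌊C₃ * Real.exp (S * k)⌋₊, ?_, ?_, ?_, ?_, ?_, ?_, ?_, ?_⟩
  · -- the frames
    have hθ1 : ∀ i ≤ k, ∀ x : X, (if i ≤ k then (iterHomeo H (k - i)).symm else
        iterHomeo F (i - k)) x = H.symm^[k - i] x := fun i hi x => by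
      rw [if_pos hi]; rfl
    have hθ2 : ∀ j, ∀ x : X, (if k + j ≤ k then (iterHomeo H (k - (k + j))).symm else
        iterHomeo F (k + j - k)) x = F^[j] x := fun j x => by
      rcases Nat.eq_zero_or_pos j with rfl | hj
      · rw [if_pos (by omega)]
        have : k - (k + 0) = 0 := by omega
        rw [this]
        rfl
      · rw [if_neg (by omega), Nat.add_sub_cancel_left]; rfl
    have key : ∀ x y : X, SR F δ₁ (H.symm^[k] x) (H.symm^[k] y) → SR H δh (H.symm^[k] x)
        (H.symm^[k] y) ∧ SR F δm x y := by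
      intro x y hxy
      have a1 := e4 _ _ (hxy.mono d1)
      refine ⟨a1, e3 _ _ ?_⟩
      have a2 := SR.iter a1 k
      rw [iterR, iterR] at a2
      exact a2.mono h1
    exact {
      hb := hbr
      hδ₁ := d7
      hρ0 := p0
      hρδ := p1
      hρη := by linarith
      hη := min_le_right _ _
      b2 := fun x y hxy => hb2 x y (hxy.trans_le (min_le_left _ _))
      gap := fun x y hxy hd => hgap x y hxy (by linarith)
      CS := by
        intro i hi x y hs
        have h := TA' δ₁ d3 B k m i _ _ hB1 hB2 (le_trans (mul_le_mul_of_nonneg_left (by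
          exact_mod_cast Nat.add_le_add_right (Nat.div_le_div_right hi) 1) (by linarith)) hB3) hs
        have e : ∀ z : X, H^[k] ((iterHomeo H k).symm z) = z := fun z => iterR H k z
        rwa [e, e] at h
      CU := by
        intro j hj x y hs
        have h := TB' δ₁ d4 B' m k j _ _ hB1' hB2' (le_trans (mul_le_mul_of_nonneg_left (by
          exact_mod_cast Nat.add_le_add_right (Nat.div_le_div_right hj) 1) (by linarith)) hB3') hs
        have e : ∀ z : X, F.symm^[m] ((iterHomeo F m) z) = z := fun z => iterL F m z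
        rwa [e, e] at h
      hm := m0
      mS := by
        intro x y hxy i hi
        obtain ⟨a1, a2⟩ := key x y hxy
        rcases le_or_gt i k with hik | hik
        · rw [hθ1 i hik, hθ1 i hik]
          have a3 := a1 i
          rw [T1_iter_sub H hik, T1_iter_sub H hik] at a3
          exact a3.trans h2
        · obtain ⟨j, rfl⟩ := Nat.exists_eq_add_of_le hik.le
          rw [hθ2, hθ2]
          exact a2 j
      mU := by
        intro x y hxy i hi
        have a1 : SR F.symm δ₁ x y := by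
          have := SR.iter (g := F.symm) hxy m
          have e : ∀ z : X, F.symm^[m] ((iterHomeo F m) z) = z := fun z => iterL F m z
          rwa [e, e] at this
        rcases le_or_gt i k with hik | hik
        · rw [hθ1 i hik, hθ1 i hik]
          exact e5 _ _ (a1.mono d2) (k - i)
        · obtain ⟨j, rfl⟩ := Nat.exists_eq_add_of_le hik.le
          rw [hθ2, hθ2]
          have a2 := hxy (m - j)
          have e : ∀ z : X, F.symm^[m - j] ((iterHomeo F m) z) = F^[j] z := by
            intro z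
            have : (iterHomeo F m) z = F^[m - j] (F^[j] z) := by
              rw [← Function.iterate_add_apply, Nat.sub_add_cancel (by omega)]; rfl
            rw [this, iterL]
          rw [e, e] at a2
          exact a2.trans d5
      down := by
        intro x y htop hmid
        have a1 : SR F c' x y := by
          intro t
          rcases le_or_gt t m with ht | ht
          · have := hmid (k + t) (by omega)
            rw [hθ2, hθ2] at this
            exact this.trans m2
          · have := htop (t - m)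
            have e : ∀ z : X, F^[t - m] ((iterHomeo F m) z) = F^[t] z := by
              intro z
              show F^[t - m] (F^[m] z) = _
              rw [← Function.iterate_add_apply, Nat.sub_add_cancel ht.le]
            rw [e, e] at this
            exact this.trans d6
        have a2 := e2 _ _ a1
        refine e1 _ _ fun t => ?_
        show dist (H^[t] (H.symm^[k] x)) (H^[t] (H.symm^[k] y)) ≤ c₂
        rcases le_total t k with ht | ht
        · rw [T1_iter_sub H ht, T1_iter_sub H ht]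
          have := hmid t (by omega)
          rw [hθ1 t ht, hθ1 t ht] at this
          exact this.trans m3
        · rw [T1_iter_add H ht, T1_iter_add H ht]
          exact a2 _ }
  · intro x y hxy
    exact TC' k x y (hxy.mono p4)
  · intro x y hxy
    exact TD' m x y (hxy.mono p5)
  · intro ε hε
    obtain ⟨ε', hε', f1⟩ := uHF ε hε
    obtain ⟨ε'', hε'', f2⟩ := uFH ε' hε'
    exact ⟨ε'', hε'', fun x y hxy => f1 _ _ (SR.iter (f2 _ _ hxy) k)⟩
  · intro ε hε
    obtain ⟨ε', hε', f1⟩ := uHF ε hε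
    have hcm : ∀ x, (iterHomeo H k) (H.symm x) = H.symm ((iterHomeo H k) x) :=
      comm_symm_right (g := H) (φ := iterHomeo H k) fun x => by
        show H^[k] (H x) = H (H^[k] x)
        rw [← Function.iterate_succ_apply, Function.iterate_succ_apply']
    obtain ⟨ε₂, hε₂, f3⟩ := map_SM hcm ε' hε'
    obtain ⟨ε'', hε'', f2⟩ := uFH ε₂ hε₂
    exact ⟨ε'', hε'', fun x y hxy => f1 _ _ (f3 _ _ (f2 _ _ hxy))⟩
  · intro ε hε
    obtain ⟨N', hN'⟩ := qs_exists_pow hc hε
    refine ⟨N', fun k' hk' x y hxy => ?_⟩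
    have a1 := e4 _ _ (hxy.mono d1)
    have a2 := SR.iter a1 k
    have e : ∀ z : X, H^[k] ((iterHomeo H k).symm z) = z := fun z => iterR H k z
    rw [e, e] at a2
    have a3 := e3 _ _ (a2.mono h1)
    exact (hF.cS _ _ (a3.mono (by linarith)) k').trans (hN' k' hk').le
  · intro x
    show F^[m] (F x) = F (F^[m] x)
    rw [← Function.iterate_succ_apply, Function.iterate_succ_apply']
  · intro x y hxy
    have a1 := (eS _ _).1 hxy
    have a2 := (WS.iter (g := H) k).2 a1
    have e : ∀ z : X, H^[k] ((iterHomeo H k).symm z) = z := fun z => iterR H k z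
    rw [e, e] at a2
    exact (eS _ _).2 a2

end Pool.Agent.T9h69.CF
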