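import Pool.Agent.T9h69.CF.Lift2

set_option autoImplicit false
set_option linter.unusedSectionVars false

/-! Corners of long words in stable and unstable steps. -/

open Filter Topology Set Metric unitInterval

namespace Pool.Agent.T9h69.CF

open Pool.Agent.H789R2.AN Pool.Agent.H789R2.GP Pool.Agent.N234.CP Pool.Agent.Y330.J

variable {X : Type*} [MetricSpace X] [CompactSpace X] {g : X ≃ₜ X} {c : ℝ}

/-- paths which are small in a frame are homotopic -/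
theorem hom_small' (hX : ULC X) : ∃ δ > 0, ∀ (ψ : X ≃ₜ X) {x y : X} (p p' : Path x y),
    (∀ t, dist (ψ x) (ψ (p t)) < δ) → (∀ t, dist (ψ x) (ψ (p' t)) < δ) →
    p.Homotopic p' := by
  obtain ⟨δ, hδ, h1⟩ := hX.homo 1 one_pos
  refine ⟨δ, hδ, fun ψ x y p p' hp hp' => ?_⟩
  obtain ⟨H, a1, a2, a3, a4, -⟩ := h1 (ψ x)
    ⟨fun t => ψ (p t), ψ.continuous.comp p.continuous⟩
    ⟨fun t => ψ (p' t), ψ.continuous.comp p'.continuous⟩
    (by simp) (by simp)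
    (fun t => by
      rw [mem_ball, dist_comm]
      exact hp t)
    (fun t => by
      rw [mem_ball, dist_comm]
      exact hp' t)
  simp only [ContinuousMap.coe_mk] at a1 a2 a3 a4
  refine ⟨⟨⟨⟨fun q => ψ.symm (H q), ψ.symm.continuous.comp H.continuous⟩,
    ?_, ?_⟩, ?_⟩⟩
  · intro t
    show ψ.symm (H (0, t)) = p t
    rw [a1, ψ.symm_apply_apply]
  · intro t
    show ψ.symm (H (1, t)) = p' t
    rw [a2, ψ.symm_apply_apply]
  · intro s t ht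
    rcases ht with rfl | ht
    · show ψ.symm (H (s, 0)) = p 0
      rw [a3, ψ.symm_apply_apply]
    · obtain rfl : t = 1 := ht
      show ψ.symm (H (s, 1)) = p 1
      rw [a4, ψ.symm_apply_apply]

theorem small_path' (hg : LP g c) (hX : ULC X) {ε : ℝ} (hε : 0 < ε) : ∃ η > 0, ∀ (ψ : X ≃ₜ X),
    (∀ x, ψ (g x) = g (ψ x)) → ∀ (x y : X),
      SR g η (ψ x) (ψ y) → ∃ p : Path x y, LPath g p ∧ ∀ t, dist (ψ x) (ψ (p t)) ≤ ε := by
  obtain ⟨η, hη, h1⟩ := leaf_path hg hX ε hε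
  refine ⟨η, hη, fun ψ hψ x y hxy => ?_⟩
  obtain ⟨υ, h2, h3, h4⟩ := h1 ⟨ψ x⟩ ⟨ψ y⟩ ((SM.dist_le _ _ hη.le).2 hxy)
  have hcm : ∀ x, ψ.symm (g x) = g (ψ.symm x) := comm_symm_left (g := g) hψ
  let v : C(I, SM g) := ⟨fun t => ⟨ψ.symm (υ t).val⟩,
    (SM.continuous_mapIter hcm 1).comp υ.continuous⟩
  have hv : ∀ t, (v t).val = ψ.symm (υ t).val := fun t => rfl
  let p : Path x y := ⟨⟨fun t => (v t).val, SM.val_continuous.comp v.continuous⟩, by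
      show (v 0).val = x
      rw [hv, h2]
      exact ψ.symm_apply_apply x, by
      show (v 1).val = y
      rw [hv, h3]
      exact ψ.symm_apply_apply y⟩
  refine ⟨p, lpath_of_sm hg v p fun t => rfl, fun t => ?_⟩
  have e : ψ (p t) = (υ t).val := by
    show ψ (ψ.symm (υ t).val) = _
    exact ψ.apply_symm_apply _
  rw [e]
  exact ((SM.dist_le _ _ hε.le).1 (h4 t)) 0

/-- The boundary of a square which is small in a frame. -/
theorem square' (hg : LP g c) (hX : ULC X) : ∃ δ₀ > 0, ∀ (ψ : X ≃ₜ X),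
    (∀ x, ψ (g x) = g (ψ x)) → ∀ {a b d e : X}
    {α : Path.Homotopic.Quotient a b} {β : Path.Homotopic.Quotient b d}
    {β' : Path.Homotopic.Quotient a e} {α' : Path.Homotopic.Quotient e d},
    Scl g α → Scl g.symm β → Scl g.symm β' → Scl g α' →
    SR g δ₀ (ψ a) (ψ b) → SR g.symm δ₀ (ψ b) (ψ d) →
    SR g.symm δ₀ (ψ a) (ψ e) → SR g δ₀ (ψ e) (ψ d) →
    α.trans β = β'.trans α' := by
  obtain ⟨δ, hδ, h1⟩ := hom_small' hX
  obtain ⟨η, hη, h2⟩ := small_path' hg hX (ε := δ / 3) (by positivity)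
  obtain ⟨η', hη', h3⟩ := small_path' hg.symm hX (ε := δ / 3) (by positivity)
  refine ⟨min η η', lt_min hη hη', ?_⟩
  intro ψ hψ a b d e α β β' α' hα hβ hβ' hα' s1 s2 s3 s4
  have hψ' : ∀ x, ψ (g.symm x) = g.symm (ψ x) := comm_symm_right hψ
  obtain ⟨p, p1, p2⟩ := h2 ψ hψ a b (s1.mono (min_le_left _ _))
  obtain ⟨q, q1, q2⟩ := h3 ψ hψ' b d (s2.mono (min_le_right _ _))
  obtain ⟨q', q1', q2'⟩ := h3 ψ hψ' a e (s3.mono (min_le_right _ _))
  obtain ⟨p', p1', p2'⟩ := h2 ψ hψ e d (s4.mono (min_le_left _ _))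
  rw [hα.unique hX ⟨p, p1, rfl⟩, hβ.unique hX ⟨q, q1, rfl⟩, hβ'.unique hX ⟨q', q1', rfl⟩,
    hα'.unique hX ⟨p', p1', rfl⟩, ← cl_trans, ← cl_trans]
  apply cl_eq
  refine h1 ψ _ _ (fun t => ?_) (fun t => ?_)
  · have := trans_dist (f := ψ) p2 q2 t
    linarith
  · have := trans_dist (f := ψ) q2' p2' t
    linarith

/-- the boundaries of the squares are null homotopic -/
def Sq (g : X ≃ₜ X) (δ₁ : ℝ) (ψ : X ≃ₜ X) : Prop := ∀ {a b d e : X}
    {α : Path.Homotopic.Quotient a b} {β : Path.Homotopic.Quotient b d}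
    {β' : Path.Homotopic.Quotient a e} {α' : Path.Homotopic.Quotient e d},
    Scl g α → Scl g.symm β → Scl g.symm β' → Scl g α' →
    SR g δ₁ (ψ a) (ψ b) → SR g.symm δ₁ (ψ b) (ψ d) →
    SR g.symm δ₁ (ψ a) (ψ e) → SR g δ₁ (ψ e) (ψ d) →
    α.trans β = β'.trans α'

/-- the state of the construction -/
def St (g φ ψ : X ≃ₜ X) (δ₁ ρ : ℝ) (j L : ℕ) {x z : X}
    (γ : Path.Homotopic.Quotient x z) : Prop :=
  ∃ (y : X) (p b b' : ℕ → X) (α : Path.Homotopic.Quotient x y) (β : Path.Homotopic.Quotient y z),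
    p 0 = y ∧ p L = z ∧ Scl g.symm α ∧ Scl g β ∧ γ = α.trans β ∧
    (∃ i ≤ j, Steps g.symm δ₁ i (ψ x) (ψ (p 0))) ∧
    ∀ l < L, SR g δ₁ (φ (p l)) (φ (p (l + 1))) ∧
      SR g ρ (φ (b l)) (φ (b' l)) ∧
      (∃ i ≤ j, Steps g.symm δ₁ i (ψ (b l)) (ψ (p l))) ∧
      ∃ i ≤ j, Steps g.symm δ₁ i (ψ (b' l)) (ψ (p (l + 1)))

theorem St.init (g φ ψ : X ≃ₜ X) (δ₁ ρ : ℝ) (x : X) :
    St g φ ψ δ₁ ρ 0 0 (Path.Homotopic.Quotient.refl x) :=
  ⟨x, fun _ => x, fun _ => x, fun _ => x, _, _, rfl, rfl, Scl.refl g.symm x, Scl.refl g x, by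
    rw [Path.Homotopic.Quotient.refl_trans], ⟨0, le_rfl, steps_zero _ _ _⟩,
    fun l hl => absurd hl (Nat.not_lt_zero l)⟩

theorem St.mono {φ ψ : X ≃ₜ X} {δ₁ ρ : ℝ} {j j' L : ℕ} {x z : X}
    {γ : Path.Homotopic.Quotient x z}
    (h : St g φ ψ δ₁ ρ j L γ) (hj : j ≤ j') : St g φ ψ δ₁ ρ j' L γ := by
  obtain ⟨y, p, b, b', α, β, h1, h2, h3, h4, h5, ⟨i, hi, h6⟩, h7⟩ := h
  refine ⟨y, p, b, b', α, β, h1, h2, h3, h4, h5, ⟨i, hi.trans hj, h6⟩, fun l hl => ?_⟩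
  obtain ⟨a1, a2, ⟨i1, hi1, a3⟩, i2, hi2, a4⟩ := h7 l hl
  exact ⟨a1, a2, ⟨i1, hi1.trans hj, a3⟩, i2, hi2.trans hj, a4⟩

theorem St.stepS {φ ψ : X ≃ₜ X} {δ₁ ρ : ℝ} (hρ : ρ ≤ δ₁) {j L : ℕ} {x z w : X}
    {γ : Path.Homotopic.Quotient x z} (h : St g φ ψ δ₁ ρ j L γ)
    {s : Path.Homotopic.Quotient z w} (hs : Scl g s)
    (hzw : SR g ρ (φ z) (φ w)) : St g φ ψ δ₁ ρ j (L + 1) (γ.trans s) := by
  obtain ⟨y, p, b, b', α, β, h1, h2, h3, h4, h5, h6, h7⟩ := h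
  refine ⟨y, fun i => if i ≤ L then p i else w, fun i => if i < L then b i else z,
    fun i => if i < L then b' i else w, α, β.trans s, by simp [h1], by simp, h3, h4.trans hs, ?_,
    ?_, fun l hl => ?_⟩
  · rw [h5, Path.Homotopic.Quotient.trans_assoc]
  · beta_reduce
    rw [if_pos (Nat.zero_le L)]
    exact h6
  · beta_reduce
    rcases Nat.lt_or_ge l L with h8 | h8
    · rw [if_pos h8.le, if_pos (by omega : l + 1 ≤ L), if_pos h8, if_pos h8]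
      exact h7 l h8
    · obtain rfl : l = L := by omega
      rw [if_pos le_rfl, if_neg (by omega), if_neg (lt_irrefl _), if_neg (lt_irrefl _), h2]
      exact ⟨hzw.mono hρ, hzw, ⟨0, Nat.zero_le _, steps_zero _ _ _⟩, 0, Nat.zero_le _,
        steps_zero _ _ _⟩

end Pool.Agent.T9h69.CF
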