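import Pool.Agent.T9h69.CF.Row

set_option autoImplicit false
set_option linter.unusedSectionVars false

/-! Unstable steps slide along a growing stable chain: corners of long paths. -/

open Filter Topology Set Metric unitInterval

namespace Pool.Agent.T9h69.CF

open Pool.Agent.H789R2.AN Pool.Agent.H789R2.GP Pool.Agent.N234.CP Pool.Agent.Y330.J

variable {X : Type*} [MetricSpace X] [CompactSpace X] {g : X ≃ₜ X} {c : ℝ}

/-- a single step, seen in the top frame -/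
theorem Frm.up {br : X → X → X} {δb δ₁ ρ η δm : ℝ} {φ ψ : X ≃ₜ X}
    {θ : ℕ → X ≃ₜ X} {n J Lm : ℕ} (F : Frm g c br δb δ₁ ρ η δm φ ψ θ n J Lm) (hL : 1 ≤ Lm)
    {x y : X} (h : SR g δ₁ (φ x) (φ y)) : SR g δ₁ (ψ x) (ψ y) :=
  (F.CS 1 hL x y ⟨fun i => if i = 0 then φ x else φ y, by simp, by simp, fun i hi => by
    obtain rfl : i = 0 := by omega
    simpa using h⟩).mono F.hρδ

theorem ws_of_comm {ψ : X ≃ₜ X} (hψ : ∀ x, ψ (g x) = g (ψ x)) {x y : X}
    (h : WS g (ψ x) (ψ y)) : WS g x y := by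
  have := WS.map (g := g) (φ := ψ.symm) (comm_symm_left (g := g) hψ) h
  rwa [ψ.symm_apply_apply, ψ.symm_apply_apply] at this

theorem St.stepU (hg : LP g c) (hX : ULC X) {br : X → X → X} {δb δ₁ ρ η δm : ℝ} {φ ψ : X ≃ₜ X}
    {θ : ℕ → X ≃ₜ X} {n J Lm : ℕ} (F : Frm g c br δb δ₁ ρ η δm φ ψ θ n J Lm)
    (sq : Sq g δ₁ ψ) (hψ : ∀ x, ψ (g x) = g (ψ x)) (wφ : ∀ x y, WS g (φ x) (φ y) → WS g x y)
    {j L : ℕ} (hj : j + 1 ≤ J) (hL : L ≤ Lm) {x z w : X}
    {γ : Path.Homotopic.Quotient x z} (h : St g φ ψ δ₁ ρ j L γ)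
    {υ : Path.Homotopic.Quotient z w} (hυ : Scl g.symm υ)
    (hzw : SR g.symm ρ (ψ z) (ψ w)) : St g φ ψ δ₁ ρ (j + 1) L (γ.trans υ) := by
  obtain ⟨y, p, b, b', α, β, h1, h2, h3, h4, h5, ⟨i₀, hi₀, h6⟩, h7⟩ := h
  have hc := hg.c_pos
  have hρ0 := F.hρ0
  have hδ1c := F.hδ₁
  have hρδ := F.hρδ
  have hρη := F.hρη
  have hη := F.hη
  have hψ' : ∀ x, ψ (g.symm x) = g.symm (ψ x) := comm_symm_right hψ
  -- the points are close to `w`
  have hchain : ∀ i ≤ L, Steps g δ₁ (L - i) (φ (p i)) (φ z) := fun i hi =>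
    ⟨fun t => φ (p (i + t)), by simp, by
      show φ (p (i + (L - i))) = _
      rw [show i + (L - i) = L by omega, h2], fun t ht => by
      have := (h7 (i + t) (by omega)).1
      rwa [Nat.add_assoc] at this⟩
  have hd : ∀ i ≤ L, dist (ψ w) (ψ (p i)) < η := by
    intro i hi
    have a1 : dist (ψ (p i)) (ψ z) ≤ ρ :=
      F.CS (L - i) (by omega) _ _ (hchain i hi) 0
    have a2 : dist (ψ z) (ψ w) ≤ ρ := hzw 0
    have a3 := dist_triangle (ψ (p i)) (ψ z) (ψ w)
    rw [dist_comm]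
    linarith
  obtain ⟨q, q0, hu, hv, hs, hb1, hb2⟩ := slide F (b := b) (b' := b') (j := j) hj hd
    (fun l hl => (h7 l hl).1) (fun l hl => (h7 l hl).2.1) (fun l hl => (h7 l hl).2.2.1)
    (fun l hl => (h7 l hl).2.2.2)
  have hqL : q L = w := by
    have a1 : dist (ψ w) (ψ z) < δb := by
      have := hd L le_rfl
      rw [h2] at this
      linarith
    have a2 := F.hb.b3 (ψ w) (ψ z) (ψ w) a1 (qs_SR_refl _ (by linarith) _)
      (hzw.mono (by linarith))
    apply ψ.injective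
    rw [q0, h2, ← a2]
  -- asymptotic pairs
  have wu : ∀ i ≤ L, WS g.symm (p i) (q i) := fun i hi =>
    ws_of_comm hψ' (WS.of_SR (hg.cU _ _ ((hu i hi).mono (by linarith))))
  have wp : ∀ l < L, WS g (p l) (p (l + 1)) := fun l hl =>
    wφ _ _ (WS.of_SR (hg.cS _ _ ((h7 l hl).1.mono (by linarith))))
  have wq : ∀ l < L, WS g (q l) (q (l + 1)) := fun l hl =>
    wφ _ _ (WS.of_SR (hg.cS _ _ ((hs l hl).mono (by linarith))))
  have wpz : ∀ i ≤ L, WS g (p i) z := fun i hi =>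
    wφ _ _ ((hchain i hi).ws hg (by linarith))
  have wqw : ∀ i ≤ L, WS g (q i) w := fun i hi =>
    ws_of_comm hψ (WS.of_SR (hg.cS _ _ ((hv i hi).mono (by linarith)))).symm'
  -- the classes
  have base : ∀ z' w' : X, z' = z → w' = w → ∀ (s : Path.Homotopic.Quotient z' z)
      (u : Path.Homotopic.Quotient z' w') (s' : Path.Homotopic.Quotient w' w),
      Scl g s → Scl g.symm u → Scl g s' → s.trans υ = u.trans s' := by
    rintro z' w' rfl rfl s u s' a1 a2 a3
    rw [a1.unique hX (Scl.refl g _), a3.unique hX (Scl.refl g _), a2.unique hX hυ,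
      Path.Homotopic.Quotient.refl_trans, Path.Homotopic.Quotient.trans_refl]
  have main : ∀ d ≤ L, ∀ (s : Path.Homotopic.Quotient (p (L - d)) z)
      (u : Path.Homotopic.Quotient (p (L - d)) (q (L - d)))
      (s' : Path.Homotopic.Quotient (q (L - d)) w),
      Scl g s → Scl g.symm u → Scl g s' → s.trans υ = u.trans s' := by
    intro d
    induction d with
    | zero =>
      intro _
      exact base _ _ (by simpa using h2) (by simpa using hqL)
    | succ d ih =>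
      intro hd'
      obtain ⟨i, hi⟩ : ∃ i, i = L - (d + 1) := ⟨_, rfl⟩
      rw [← hi]
      intro s u s' a1 a2 a3
      have hi1 : L - d = i + 1 := by omega
      have hiL : i < L := by omega
      rw [hi1] at ih
      obtain ⟨t, ht⟩ := exists_scl hg hX (wp i hiL)
      obtain ⟨t', ht'⟩ := exists_scl hg hX (wq i hiL)
      obtain ⟨s1, hs1⟩ := exists_scl hg hX (wpz (i + 1) hiL)
      obtain ⟨s1', hs1'⟩ := exists_scl hg hX (wqw (i + 1) hiL)
      obtain ⟨u1, hu1⟩ := exists_scl hg.symm hX (wu (i + 1) hiL)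
      have b1 := ih (by omega) s1 u1 s1' hs1 hu1 hs1'
      have b2 : t.trans u1 = u.trans t' := sq ht hu1 a2 ht'
        (F.up (by omega) (h7 i hiL).1) (hu (i + 1) hiL) (hu i hiL.le) (F.up (by omega) (hs i hiL))
      rw [a1.unique hX (ht.trans hs1), a3.unique hX (ht'.trans hs1'),
        Path.Homotopic.Quotient.trans_assoc, b1, ← Path.Homotopic.Quotient.trans_assoc, b2,
        Path.Homotopic.Quotient.trans_assoc]
  obtain ⟨u0, hu0⟩ := exists_scl hg.symm hX (wu 0 (Nat.zero_le _))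
  obtain ⟨s0, hs0⟩ := exists_scl hg hX (wqw 0 (Nat.zero_le _))
  subst h1
  have h8 := main L le_rfl
  rw [Nat.sub_self] at h8
  have h9 := h8 β u0 s0 h4 hu0 hs0
  refine ⟨q 0, q, b, b', α.trans u0, s0, rfl, hqL, h3.trans hu0, hs0, ?_,
    ⟨i₀ + 1, by omega, h6.snoc (hu 0 (Nat.zero_le _))⟩, fun l hl =>
    ⟨hs l hl, (h7 l hl).2.1, hb1 l hl, hb2 l hl⟩⟩
  rw [h5, Path.Homotopic.Quotient.trans_assoc, h9, ← Path.Homotopic.Quotient.trans_assoc]

/-- many unstable steps -/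
theorem St.stepsU (hg : LP g c) (hX : ULC X) {br : X → X → X} {δb δ₁ ρ η δm : ℝ} {φ ψ : X ≃ₜ X}
    {θ : ℕ → X ≃ₜ X} {n J Lm : ℕ} (F : Frm g c br δb δ₁ ρ η δm φ ψ θ n J Lm)
    (sq : Sq g δ₁ ψ) (hψ : ∀ x, ψ (g x) = g (ψ x)) (wφ : ∀ x y, WS g (φ x) (φ y) → WS g x y)
    {j L N : ℕ} (hj : j + N ≤ J) (hL : L ≤ Lm) {x z w : X}
    {γ : Path.Homotopic.Quotient x z} (h : St g φ ψ δ₁ ρ j L γ)
    {υ : Path.Homotopic.Quotient z w} (hυ : Scl g.symm υ)
    (hzw : Steps g.symm ρ N (ψ z) (ψ w)) : St g φ ψ δ₁ ρ (j + N) L (γ.trans υ) := by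
  obtain ⟨ζ, z0, zN, hz⟩ := hzw
  have hc := F.hδ₁
  have hρδ := F.hρδ
  have hρ0 := F.hρ0
  have hψ' : ∀ x, ψ (g.symm x) = g.symm (ψ x) := comm_symm_right hψ
  have hd : ∀ i, ψ (ψ.symm (ζ i)) = ζ i := fun i => ψ.apply_symm_apply _
  have key : ∀ i ≤ N, ∀ υ' : Path.Homotopic.Quotient z (ψ.symm (ζ i)), Scl g.symm υ' →
      St g φ ψ δ₁ ρ (j + i) L (γ.trans υ') := by
    intro i
    induction i with
    | zero =>
      intro _
      have e : ψ.symm (ζ 0) = z := by rw [z0, ψ.symm_apply_apply]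
      rw [e]
      intro υ' hυ'
      rw [hυ'.unique hX (Scl.refl g.symm z), Path.Homotopic.Quotient.trans_refl]
      exact h
    | succ i ih =>
      intro hi υ' hυ'
      have w1 : WS g.symm (ψ.symm (ζ i)) (ψ.symm (ζ (i + 1))) := by
        apply ws_of_comm hψ'
        rw [hd, hd]
        exact WS.of_SR (hg.cU _ _ ((hz i (by omega)).mono (by linarith)))
      have w2 : ∀ i ≤ N, WS g.symm z (ψ.symm (ζ i)) := by
        intro i hi
        apply ws_of_comm hψ'
        rw [hd, ← z0]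
        exact (Steps.of_chain hz hi).ws hg.symm (by linarith)
      obtain ⟨s, hs⟩ := exists_scl hg.symm hX w1
      obtain ⟨s', hs'⟩ := exists_scl hg.symm hX (w2 i (by omega))
      rw [hυ'.unique hX (hs'.trans hs), ← Path.Homotopic.Quotient.trans_assoc, ← Nat.add_assoc]
      refine (ih (by omega) s' hs').stepU hg hX F sq hψ wφ (by omega) hL hs ?_
      rw [hd, hd]
      exact hz i (by omega)
  have h1 := key N le_rfl
  have e : ψ.symm (ζ N) = w := by rw [zN, ψ.symm_apply_apply]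
  rw [e] at h1
  exact h1 υ hυ

/-- many stable steps -/
theorem St.stepsS (hg : LP g c) (hX : ULC X) {δ₁ ρ : ℝ} {φ ψ : X ≃ₜ X} (hρδ : ρ ≤ δ₁)
    (hδc : δ₁ ≤ c) (wφ : ∀ x y, WS g (φ x) (φ y) → WS g x y) {j L N : ℕ} {x z w : X}
    {γ : Path.Homotopic.Quotient x z} (h : St g φ ψ δ₁ ρ j L γ)
    {υ : Path.Homotopic.Quotient z w} (hυ : Scl g υ)
    (hzw : Steps g ρ N (φ z) (φ w)) : St g φ ψ δ₁ ρ j (L + N) (γ.trans υ) := by
  obtain ⟨ζ, z0, zN, hz⟩ := hzw
  have hd : ∀ i, φ (φ.symm (ζ i)) = ζ i := fun i => φ.apply_symm_apply _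
  have key : ∀ i ≤ N, ∀ υ' : Path.Homotopic.Quotient z (φ.symm (ζ i)), Scl g υ' →
      St g φ ψ δ₁ ρ j (L + i) (γ.trans υ') := by
    intro i
    induction i with
    | zero =>
      intro _
      have e : φ.symm (ζ 0) = z := by rw [z0, φ.symm_apply_apply]
      rw [e]
      intro υ' hυ'
      rw [hυ'.unique hX (Scl.refl g z), Path.Homotopic.Quotient.trans_refl]
      exact h
    | succ i ih =>
      intro hi υ' hυ'
      have w1 : WS g (φ.symm (ζ i)) (φ.symm (ζ (i + 1))) := by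
        apply wφ
        rw [hd, hd]
        exact WS.of_SR (hg.cS _ _ ((hz i (by omega)).mono (by linarith)))
      have w2 : ∀ i ≤ N, WS g z (φ.symm (ζ i)) := by
        intro i hi
        apply wφ
        rw [hd, ← z0]
        exact (Steps.of_chain hz hi).ws hg (by linarith)
      obtain ⟨s, hs⟩ := exists_scl hg hX w1
      obtain ⟨s', hs'⟩ := exists_scl hg hX (w2 i (by omega))
      rw [hυ'.unique hX (hs'.trans hs), ← Path.Homotopic.Quotient.trans_assoc, ← Nat.add_assoc]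
      refine (ih (by omega) s' hs').stepS hρδ hs ?_
      rw [hd, hd]
      exact hz i (by omega)
  have h1 := key N le_rfl
  have e : φ.symm (ζ N) = w := by rw [zN, φ.symm_apply_apply]
  rw [e] at h1
  exact h1 υ hυ

end Pool.Agent.T9h69.CF
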