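import Pool.Agent.N234.CP.Grow

set_option autoImplicit false
set_option linter.unusedSectionVars false

/-! Frames, and the sliding of a stable chain along an unstable step. -/

open Filter Topology Set Metric unitInterval

namespace Pool.Agent.T9h69.CF

open Pool.Agent.H789R2.AN Pool.Agent.H789R2.GP Pool.Agent.N234.CP Pool.Agent.Y330.J

variable {X : Type*} [MetricSpace X] [CompactSpace X]

/-- `φ` is uniformly continuous along the local stable sets of `g` -/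
def Loc (g φ : X ≃ₜ X) : Prop := ∀ ε > 0, ∃ η > 0, ∀ x y, SR g η x y → SR g ε (φ x) (φ y)

theorem Steps.append {g : X ≃ₜ X} {δ : ℝ} {N M : ℕ} {x y z : X} (h : Steps g δ N x y)
    (h' : Steps g δ M y z) : Steps g δ (N + M) x z := by
  obtain ⟨w, w0, w1, w2⟩ := h'
  have key : ∀ i ≤ M, Steps g δ (N + i) x (w i) := by
    intro i
    induction i with
    | zero => intro _; rw [w0]; exact h
    | succ i ih => intro hi; exact (ih (by omega)).snoc (w2 i (by omega))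
  have := key M le_rfl
  rwa [w1] at this

theorem Steps.rev {g : X ≃ₜ X} {δ : ℝ} {N : ℕ} {x y : X} (h : Steps g δ N x y) :
    Steps g δ N y x := by
  obtain ⟨w, w0, w1, w2⟩ := h
  refine ⟨fun i => w (N - i), by simpa using w1, by simpa using w0, fun i hi => ?_⟩
  have := w2 (N - (i + 1)) (by omega)
  rw [show N - (i + 1) + 1 = N - i by omega] at this
  exact this.symm'

/-- chains of images -/
theorem Steps.lift {g g' φ : X ≃ₜ X} {δ δ' : ℝ} {L : ℕ}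
    (U : ∀ x y, SR g δ x y → ∃ M ≤ L, Steps g' δ' M (φ x) (φ y)) {N : ℕ} {x y : X}
    (h : Steps g δ N x y) : ∃ M ≤ N * L, Steps g' δ' M (φ x) (φ y) := by
  obtain ⟨w, w0, w1, w2⟩ := h
  have key : ∀ i ≤ N, ∃ M ≤ i * L, Steps g' δ' M (φ x) (φ (w i)) := by
    intro i
    induction i with
    | zero => intro _; rw [w0]; exact ⟨0, Nat.zero_le _, steps_zero _ _ _⟩
    | succ i ih =>
      intro hi
      obtain ⟨M, hM, h1⟩ := ih (by omega)
      obtain ⟨M', hM', h2⟩ := U _ _ (w2 i (by omega))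
      refine ⟨M + M', ?_, Steps.append h1 h2⟩
      rw [Nat.succ_mul]
      omega
  have := key N le_rfl
  rwa [w1] at this

theorem steps_path {g : X ≃ₜ X} (v : C(I, SM g)) {δ : ℝ} (hδ : 0 < δ) :
    ∃ N : ℕ, ∀ t : I, Steps g δ N (v 0).val (v t).val := by
  have hu : UniformContinuous v := CompactSpace.uniformContinuous_of_continuous v.continuous
  obtain ⟨η, hη, h1⟩ := Metric.uniformContinuous_iff.1 hu δ hδ
  obtain ⟨N, hN⟩ := exists_nat_gt (1 / η)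
  have hN0 : (0 : ℝ) < N := lt_trans (by positivity) hN
  refine ⟨N, fun t => ⟨fun i => (v (Set.projIcc 0 1 zero_le_one (t * i / N))).val, ?_, ?_,
    fun i hi => ?_⟩⟩
  · simp only [Nat.cast_zero, mul_zero, zero_div]
    congr 2
    exact Set.projIcc_left _
  · have : (t : ℝ) * N / N = t := by field_simp
    simp only [this]
    congr 2
    exact Set.projIcc_val _ t
  · refine (SM.dist_le _ _ hδ.le).1 (h1 ?_).le
    have h2 := (LipschitzWith.projIcc (zero_le_one (α := ℝ))).dist_le_mul (t * i / N : ℝ)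
      (t * (i + 1 : ℕ) / N)
    refine lt_of_le_of_lt h2 ?_
    rw [Real.dist_eq, abs_sub_comm]
    have h3 : (t : ℝ) * (i + 1 : ℕ) / N - t * i / N = t / N := by push_cast; ring
    rw [h3, abs_of_nonneg (div_nonneg t.2.1 hN0.le)]
    have h4 : (t : ℝ) / N ≤ 1 / N := div_le_div_of_nonneg_right t.2.2 hN0.le
    have h5 : 1 / (N : ℝ) < η := by
      rw [div_lt_iff₀ hN0]
      rw [div_lt_iff₀ hη] at hN
      linarith
    simp only [NNReal.coe_one, one_mul]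
    linarith

/-- The constants and the frames: `φ` is the bottom frame, `ψ` the top frame, `θ i`, `i ≤ n`, the
frames in between. -/
structure Frm (g : X ≃ₜ X) (c : ℝ) (br : X → X → X) (δb δ₁ ρ η δm : ℝ) (φ ψ : X ≃ₜ X)
    (θ : ℕ → X ≃ₜ X) (n J Lm : ℕ) : Prop where
  hb : BrP g c br δb
  hδ₁ : 3 * δ₁ ≤ c
  hρ0 : 0 < ρ
  hρδ : ρ ≤ δ₁
  hρη : 2 * ρ < η
  hη : η ≤ δb
  b2 : ∀ x y, dist x y < η → SR g δ₁ x (br x y) ∧ SR g.symm δ₁ y (br x y)
  gap : ∀ x y, SR g c x y → dist x y ≤ 3 * ρ → SR g δ₁ x y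
  CS : ∀ i ≤ Lm, ∀ x y, Steps g δ₁ i (φ x) (φ y) → SR g ρ (ψ x) (ψ y)
  CU : ∀ j ≤ J, ∀ x y, Steps g.symm δ₁ j (ψ x) (ψ y) → SR g.symm ρ (φ x) (φ y)
  hm : 0 < δm
  mS : ∀ x y, SR g δ₁ (φ x) (φ y) → ∀ i ≤ n, dist (θ i x) (θ i y) ≤ δm
  mU : ∀ x y, SR g.symm δ₁ (ψ x) (ψ y) → ∀ i ≤ n, dist (θ i x) (θ i y) ≤ δm
  down : ∀ x y, SR g (2 * δ₁) (ψ x) (ψ y) → (∀ i ≤ n, dist (θ i x) (θ i y) ≤ 3 * δm) →
    SR g c (φ x) (φ y)

/-- **Sliding** a stable chain `p` (short steps in the bottom frame) along an unstable step which is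
small in the top frame. -/
theorem slide {g : X ≃ₜ X} {c : ℝ} {br : X → X → X} {δb δ₁ ρ η δm : ℝ} {φ ψ : X ≃ₜ X}
    {θ : ℕ → X ≃ₜ X} {n J Lm : ℕ} (F : Frm g c br δb δ₁ ρ η δm φ ψ θ n J Lm)
    {p b b' : ℕ → X} {L j : ℕ} (hj : j + 1 ≤ J) {w : X}
    (hd : ∀ l ≤ L, dist (ψ w) (ψ (p l)) < η)
    (hp : ∀ l < L, SR g δ₁ (φ (p l)) (φ (p (l + 1))))
    (hbb : ∀ l < L, SR g ρ (φ (b l)) (φ (b' l)))
    (h1 : ∀ l < L, ∃ i ≤ j, Steps g.symm δ₁ i (ψ (b l)) (ψ (p l)))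
    (h2 : ∀ l < L, ∃ i ≤ j, Steps g.symm δ₁ i (ψ (b' l)) (ψ (p (l + 1)))) :
    ∃ q : ℕ → X, (∀ l, ψ (q l) = br (ψ w) (ψ (p l))) ∧
      (∀ l ≤ L, SR g.symm δ₁ (ψ (p l)) (ψ (q l))) ∧ (∀ l ≤ L, SR g δ₁ (ψ w) (ψ (q l))) ∧
      (∀ l < L, SR g δ₁ (φ (q l)) (φ (q (l + 1)))) ∧
      (∀ l < L, ∃ i ≤ j + 1, Steps g.symm δ₁ i (ψ (b l)) (ψ (q l))) ∧
      (∀ l < L, ∃ i ≤ j + 1, Steps g.symm δ₁ i (ψ (b' l)) (ψ (q (l + 1)))) := by
  have hqm : ∀ l, ψ (ψ.symm (br (ψ w) (ψ (p l)))) = br (ψ w) (ψ (p l)) := fun l =>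
    ψ.apply_symm_apply _
  set q : ℕ → X := fun l => ψ.symm (br (ψ w) (ψ (p l))) with hq
  have hu : ∀ l ≤ L, SR g.symm δ₁ (ψ (p l)) (ψ (q l)) := fun l hl => by
    rw [hqm]
    exact (F.b2 _ _ (hd l hl)).2
  have hv : ∀ l ≤ L, SR g δ₁ (ψ w) (ψ (q l)) := fun l hl => by
    rw [hqm]
    exact (F.b2 _ _ (hd l hl)).1
  have hb1 : ∀ l < L, ∃ i ≤ j + 1, Steps g.symm δ₁ i (ψ (b l)) (ψ (q l)) := by
    intro l hl
    obtain ⟨i, hi, a3⟩ := h1 l hl
    exact ⟨i + 1, by omega, a3.snoc (hu l hl.le)⟩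
  have hb2 : ∀ l < L, ∃ i ≤ j + 1, Steps g.symm δ₁ i (ψ (b' l)) (ψ (q (l + 1))) := by
    intro l hl
    obtain ⟨i, hi, a3⟩ := h2 l hl
    exact ⟨i + 1, by omega, a3.snoc (hu (l + 1) hl)⟩
  refine ⟨q, fun l => hqm l, hu, hv, fun l hl => ?_, hb1, hb2⟩
  apply F.gap
  · apply F.down
    · have := qs_SR_add (hv l hl.le).symm' (hv (l + 1) hl)
      exact this.mono (by linarith)
    · intro i hi
      have a1 := F.mU _ _ (hu l hl.le) i hi
      have a2 := F.mU _ _ (hu (l + 1) hl) i hi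
      have a3 := F.mS _ _ (hp l hl) i hi
      have a4 := dist_triangle4 (θ i (q l)) (θ i (p l)) (θ i (p (l + 1))) (θ i (q (l + 1)))
      rw [dist_comm (θ i (q l)) (θ i (p l))] at a4
      linarith
  · obtain ⟨i, hi, a1⟩ := hb1 l hl
    obtain ⟨i', hi', a2⟩ := hb2 l hl
    have a3 : dist (φ (b l)) (φ (q l)) ≤ ρ := F.CU i (by omega) _ _ a1 0
    have a4 : dist (φ (b' l)) (φ (q (l + 1))) ≤ ρ := F.CU i' (by omega) _ _ a2 0
    have a5 : dist (φ (b l)) (φ (b' l)) ≤ ρ := hbb l hl 0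
    have a6 := dist_triangle4 (φ (q l)) (φ (b l)) (φ (b' l)) (φ (q (l + 1)))
    rw [dist_comm (φ (q l)) (φ (b l))] at a6
    linarith

end Pool.Agent.T9h69.CF
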